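import Mathlib

/-!
# Project CB (conic bundles), definitions
-/

set_option autoImplicit false

namespace Pool.Agent.Helper4.CB

open NumberField Finset

/-- the finite places of a number field -/
abbrev Pl (K : Type) [Field K] [NumberField K] := IsDedekindDomain.HeightOneSpectrum (𝓞 K)

/-- the norm of a finite place -/
noncomputable def nm {K : Type} [Field K] [NumberField K] (v : Pl K) : ℕ :=
  Ideal.absNorm v.asIdeal

theorem two_le_nm {K : Type} [Field K] [NumberField K] (v : Pl K) : 2 ≤ nm v := by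
  have h0 : Ideal.absNorm v.asIdeal ≠ 0 := by
    rw [Ne, Ideal.absNorm_eq_zero_iff]
    exact v.ne_bot
  have h1 : Ideal.absNorm v.asIdeal ≠ 1 := by
    rw [Ne, Ideal.absNorm_eq_one_iff]
    exact v.isPrime.ne_top
  unfold nm
  omega

theorem finite_nm_le (K : Type) [Field K] [NumberField K] (x : ℕ) : {v : Pl K | nm v ≤ x}.Finite := by
  have h := Ideal.finite_setOfPred_absNorm_le (S := 𝓞 K) x
  refine Set.Finite.of_finite_image (f := fun v : Pl K => v.asIdeal) (h.subset ?_) ?_
  · rintro _ ⟨v, hv, rfl⟩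
    exact hv
  · intro v _ w _ h
    exact IsDedekindDomain.HeightOneSpectrum.ext h

/-- the places of norm at most `x` -/
noncomputable def plLE (K : Type) [Field K] [NumberField K] (x : ℕ) : Finset (Pl K) :=
  (finite_nm_le K x).toFinset

theorem mem_plLE {K : Type} [Field K] [NumberField K] {x : ℕ} {v : Pl K} :
    v ∈ plLE K x ↔ nm v ≤ x := by
  unfold plLE
  rw [Set.Finite.mem_toFinset]
  rfl

/-- the `n`-th root of the absolute norm, `n = [K : ℚ]` -/
noncomputable def rn {K : Type} [Field K] [NumberField K] (c : 𝓞 K) : ℝ :=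
  (|Algebra.norm ℤ c| : ℝ) ^ ((1 : ℝ) / Module.finrank ℚ K)

section Lattice

variable {N : ℕ} {G : Type} [AddCommGroup G]

/-- a box in a free group `G` with coordinates `e` -/
noncomputable def bx (e : (Fin N → ℤ) ≃+ G) (τ : G) (X : ℕ) : Finset G :=
  (Fintype.piFinset (fun _ : Fin N => Ico (0 : ℤ) X)).map
    ⟨fun f => τ + e f, fun _ _ h => e.injective (add_left_cancel h)⟩

theorem mem_bx {e : (Fin N → ℤ) ≃+ G} {τ : G} {X : ℕ} {g : G} :
    g ∈ bx e τ X ↔ ∀ i, 0 ≤ e.symm (g - τ) i ∧ e.symm (g - τ) i < X := by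
  unfold bx
  rw [mem_map]
  constructor
  · rintro ⟨f, hf, rfl⟩ i
    rw [Fintype.mem_piFinset] at hf
    have := hf i
    rw [mem_Ico] at this
    simpa using this
  · intro h
    refine ⟨e.symm (g - τ), ?_, by simp⟩
    rw [Fintype.mem_piFinset]
    intro i
    rw [mem_Ico]
    exact h i

/-- covering radius at most `ρ` -/
def Rad (e : (Fin N → ℤ) ≃+ G) (Λ : AddSubgroup G) (ρ : ℕ) : Prop :=
  ∀ g : G, ∃ l ∈ Λ, ∀ i, |e.symm (g - l) i| ≤ ρ

end Lattice

end Pool.Agent.Helper4.CB
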