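import Pool.Agent.Helper4.CB.Geom
import Pool.Agent.Helper33.CB.EndFam
import Pool.Agent.Helper65.CB.Dom

/-!
# CB, T-TRI: the final assembly
-/

set_option autoImplicit false

namespace Pool.Agent.Helper4.CB

open NumberField MvPolynomial Pool.Agent.Helper65.CB Pool.Agent.Helper69.CB
open AlgebraicGeometry CategoryTheory Pool.Agent.Helper15

theorem end_famY (K M : Type) [Field K] [NumberField K] [Field M] [NumberField M] [Algebra K M]
    (A : Type) [CommRing A] [Algebra K A] (r : ℕ) (a b : Fin r → A) (J : ℕ)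
    (hd : ∀ f : A, f ≠ 0 → ∃ φ : A →ₐ[K] M, φ f ≠ 0 ∧ ∀ i, HS M J (φ (a i)) (φ (b i))) :
    PotentiallyDense K (Spec (CommRingCat.of (MvPolynomial (Fin r × Fin 2) A ⧸ Ideal.span
      (Set.range fun i : Fin r => (MvPolynomial.X (i, 0) ^ 2 -
        MvPolynomial.C (a i) * MvPolynomial.X (i, 1) ^ 2 - MvPolynomial.C (b i) :
        MvPolynomial (Fin r × Fin 2) A)))))
      (Spec.map (CommRingCat.ofHom (algebraMap K (MvPolynomial (Fin r × Fin 2) A ⧸ Ideal.span
      (Set.range fun i : Fin r => (MvPolynomial.X (i, 0) ^ 2 -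
        MvPolynomial.C (a i) * MvPolynomial.X (i, 1) ^ 2 - MvPolynomial.C (b i) :
        MvPolynomial (Fin r × Fin 2) A)))))) := by
  obtain ⟨L, iL, iA, hfin, hL⟩ := solve M J (Pool.Agent.Helper16.CB.algebraic_block M J)
  let iKL : Algebra K L := ((algebraMap M L).comp (algebraMap K M)).toAlgebra
  have htower : IsScalarTower K M L := IsScalarTower.of_algebraMap_eq (fun x => rfl)
  have hKM : FiniteDimensional K M := inferInstance
  have hfKL : FiniteDimensional K L := FiniteDimensional.trans K M L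
  have hchL : CharZero L := charZero_of_injective_algebraMap (algebraMap M L).injective
  refine ⟨L, inferInstance, inferInstance, inferInstance, ?_⟩
  refine dense_ratPts_spec K L _
    (fun g hg => Pool.Agent.Helper33.CB.separateF (M := M) a b (fun d hd0 => ?_) g hg)
  obtain ⟨φ, hφ, hHS⟩ := hd d hd0
  refine ⟨φ, hφ, fun i => ?_⟩
  obtain ⟨hx, hy, X₀, Y₀, hXY⟩ := hL _ _ (hHS i)
  refine ⟨hy, fun Y => ?_⟩
  have hinj : Function.Injective (algebraMap M L) := (algebraMap M L).injective
  obtain ⟨x', y', h3, h4⟩ := Pool.Agent.Helper56.CB.conic_points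
    (a := algebraMap M L (φ (a i))) (b := algebraMap M L (φ (b i)))
    (by rwa [Ne, map_eq_zero_iff _ hinj]) (by rwa [Ne, map_eq_zero_iff _ hinj])
    (x := X₀) (y := Y₀) (z := 1) (Or.inr (Or.inr one_ne_zero))
    (by linear_combination hXY) Y
  exact ⟨x', y', h3, h4⟩

/-- **T-TRI**, geometric form, families, dominated schemes; `htri` is piece F for all number
fields. -/
theorem final_tri (K : Type) [Field K] [NumberField K] (dm : ℕ) (n r : ℕ)
    (htri : ∀ (M : Type) [Field M] [NumberField M] (a b : Fin r → MvPolynomial (Fin n) M),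
      (∀ i, a i ≠ 0) → (∀ i, b i ≠ 0) →
      (∀ i, ∀ P : MvPolynomial (Fin n) M, Irreducible P → P ∣ a i * b i →
        TriDeg dm P ∨ LCU P (a i) (b i)) →
      ∃ J, ∀ f : MvPolynomial (Fin n) M, f ≠ 0 →
        ∃ φ : MvPolynomial (Fin n) M →ₐ[M] M, φ f ≠ 0 ∧ ∀ i, HS M J (φ (a i)) (φ (b i)))
    (a b : Fin r → MvPolynomial (Fin n) K) (ha : ∀ i, a i ≠ 0) (hb : ∀ i, b i ≠ 0)
    (h : ∀ i, ∀ P : MvPolynomial (Fin n) (AlgebraicClosure K), Irreducible P →
      P ∣ map (algebraMap K (AlgebraicClosure K)) (a i * b i) →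
      (∀ j : Fin n, (∀ k < j, P.degreeOf k = 0) → P.degreeOf j ≤ dm) ∨
      LCU P (map (algebraMap K (AlgebraicClosure K)) (a i))
        (map (algebraMap K (AlgebraicClosure K)) (b i)))
    (X : Scheme.{0}) (s : X ⟶ Spec (CommRingCat.of K))
    (hX : DominatedOver K X (Spec (CommRingCat.of (MvPolynomial (Fin r × Fin 2)
      (MvPolynomial (Fin n) K) ⧸ Ideal.span
      (Set.range fun i : Fin r => (MvPolynomial.X (i, 0) ^ 2 -
        MvPolynomial.C (a i) * MvPolynomial.X (i, 1) ^ 2 - MvPolynomial.C (b i) :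
        MvPolynomial (Fin r × Fin 2) (MvPolynomial (Fin n) K)))))) s
      (Spec.map (CommRingCat.ofHom (algebraMap K (MvPolynomial (Fin r × Fin 2)
        (MvPolynomial (Fin n) K) ⧸ Ideal.span
      (Set.range fun i : Fin r => (MvPolynomial.X (i, 0) ^ 2 -
        MvPolynomial.C (a i) * MvPolynomial.X (i, 1) ^ 2 - MvPolynomial.C (b i) :
        MvPolynomial (Fin r × Fin 2) (MvPolynomial (Fin n) K)))))))) :
    PotentiallyDense K X s := by
  obtain ⟨M, iM, nM, aM, hM, J, hJ⟩ := harmless_geom K dm htri a b ha hb h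
  exact PotentiallyDense.of_dominated hX (end_famY K M _ r a b J hJ)

end Pool.Agent.Helper4.CB
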