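import Pool.Agent.Helper4.CB.Defs
import Pool.Agent.Helper92.CB.RareK

/-!
# CB, piece BAD: places with norm `1` modulo `2 ^ J`
-/

set_option autoImplicit false

namespace Pool.Agent.Helper4.CB

open Finset NumberField

open Classical in
/-- **BAD.** Places of degree one: rational primes `p = 1` mod `2 ^ J`, Brun-Titchmarsh (in the
library, `Pool/Agent/Helper1/D6`, or an easier sieve bound); places of higher degree: convergent
series.  Note `nm v ≥ 2 ^ J + 1` for all `v` in the sum. -/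
theorem bad_sum (K : Type) [Field K] [NumberField K] {ε : ℝ} (hε : 0 < ε) :
    ∃ J0 : ℕ, ∀ J : ℕ, J0 ≤ J → ∀ x : ℕ, 1 ≤ x →
      ∑ v ∈ (plLE K x).filter (fun v => nm v ≡ 1 [MOD 2 ^ J]), Real.log (nm v) / nm v ≤
        ε * Real.log x := by
  obtain ⟨J0, hJ0⟩ := Pool.Agent.Helper92.CB.rare_log_unif K ε hε
  refine ⟨J0, fun J hJ x hx => ?_⟩
  have h := hJ0 J hJ (x : ℝ) (by exact_mod_cast hx)
    (((plLE K x).filter (fun v => nm v ≡ 1 [MOD 2 ^ J])).image (fun v : Pl K => v.asIdeal))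
    (fun P hP => ?_)
  · rw [Finset.sum_image] at h
    · exact h
    · intro v _ w _ hvw
      exact IsDedekindDomain.HeightOneSpectrum.ext hvw
  · obtain ⟨v, hv, rfl⟩ := Finset.mem_image.mp hP
    obtain ⟨hv1, hv2⟩ := Finset.mem_filter.mp hv
    exact ⟨v.isPrime, v.ne_bot, hv2, by exact_mod_cast mem_plLE.mp hv1⟩

/-- the sum of `N𝔭 ^ (-3/2)` converges -/
theorem sum_nm_rpow (K : Type) [Field K] [NumberField K] :
    ∃ C : ℝ, ∀ F : Finset (Pl K), ∑ v ∈ F, (nm v : ℝ) ^ (-(3 / 2) : ℝ) ≤ C := by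
  classical
  obtain ⟨C, -, hC⟩ := Pool.Agent.Helper92.CB.sum_rpow_le K
  refine ⟨C, fun F => ?_⟩
  have h := hC (F.image (fun v : Pl K => v.asIdeal)) (fun P hP => ?_)
  · rw [Finset.sum_image] at h
    · exact h
    · intro v _ w _ hvw
      exact IsDedekindDomain.HeightOneSpectrum.ext hvw
  · obtain ⟨v, hv, rfl⟩ := Finset.mem_image.mp hP
    exact ⟨v.isPrime, v.ne_bot⟩

end Pool.Agent.Helper4.CB
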