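import Pool.Agent.Helper4.CB.Defs
import Pool.Agent.Helper92.CB.RareK
import Pool.Agent.Helper9.Fam.Mertens

/-!
# CB, piece MERT: Mertens' upper bound for the places of a number field
-/

set_option autoImplicit false

namespace Pool.Agent.Helper4.CB

open Finset NumberField

/-- rational primes in a window -/
theorem window_primes : ∃ C : ℝ, 0 ≤ C ∧ ∀ x y : ℕ, 1 ≤ x → x ≤ y →
    ∑ p ∈ Pool.Agent.Helper9.Fam.pr y \ Pool.Agent.Helper9.Fam.pr x, Real.log p / (p : ℝ) ≤
      Real.log y - Real.log x + C := by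
  obtain ⟨C, hC0, hC⟩ := Pool.Agent.Helper9.Fam.exists_mertens_lower
  refine ⟨Real.log 4 + C, by positivity, fun x y hx hxy => ?_⟩
  have hsub : Pool.Agent.Helper9.Fam.pr x ⊆ Pool.Agent.Helper9.Fam.pr y := by
    intro p hp
    rw [Pool.Agent.Helper9.Fam.mem_pr] at hp ⊢
    exact ⟨hp.1, hp.2.trans hxy⟩
  have h1 := Finset.sum_sdiff hsub (f := fun p : ℕ => Real.log p / (p : ℝ))
  have h2 := Pool.Agent.Helper9.Fam.sum_log_div_le y (hx.trans hxy)
  have h3 := hC x hx
  linarith

open Classical in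
/-- **MERT.** Chebyshev's upper bound `θ(x) ≤ x log 4` on dyadic intervals; at most `[K : ℚ]`
places of degree one above `p`, the places of higher degree give a convergent series. -/
theorem mertens_upper (K : Type) [Field K] [NumberField K] :
    ∃ C : ℝ, 0 ≤ C ∧ ∀ x y : ℕ, 1 ≤ x → x ≤ y →
      ∑ v ∈ (plLE K y).filter (fun v => x < nm v), Real.log (nm v) / nm v ≤
        C * (Real.log y - Real.log x + 1) := by
  obtain ⟨C, hC0, hC⟩ := window_primes
  have hsum : Summable fun m : ℕ => 4 / (m : ℝ) ^ ((3 : ℝ) / 2) := by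
    have : Summable fun m : ℕ => 1 / (m : ℝ) ^ ((3 : ℝ) / 2) :=
      Real.summable_one_div_nat_rpow.mpr (by norm_num)
    refine (this.mul_left 4).congr fun m => ?_
    ring
  set D : ℝ := ∑' m : ℕ, 4 / (m : ℝ) ^ ((3 : ℝ) / 2) with hD
  have hD0 : 0 ≤ D := tsum_nonneg fun m => by positivity
  set n : ℝ := (Module.finrank ℚ K : ℝ) with hn
  have hn0 : 0 ≤ n := Nat.cast_nonneg _
  refine ⟨n * (1 + C + D), by positivity, fun x y hx hxy => ?_⟩
  have hlog : 0 ≤ Real.log y - Real.log x := by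
    have : Real.log x ≤ Real.log y :=
      Real.log_le_log (by exact_mod_cast hx) (by exact_mod_cast hxy)
    linarith
  set S : Finset (Ideal (𝓞 K)) :=
    ((plLE K y).filter (fun v => x < nm v)).image (fun v : Pl K => v.asIdeal) with hS
  have hSmem : ∀ P ∈ S, P.IsPrime ∧ P ≠ ⊥ ∧ x < Ideal.absNorm P ∧ Ideal.absNorm P ≤ y := by
    intro P hP
    obtain ⟨v, hv, rfl⟩ := Finset.mem_image.mp hP
    obtain ⟨hv1, hv2⟩ := Finset.mem_filter.mp hv
    exact ⟨v.isPrime, v.ne_bot, hv2, mem_plLE.mp hv1⟩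
  have hSsum : ∑ v ∈ (plLE K y).filter (fun v => x < nm v), Real.log (nm v) / nm v =
      ∑ P ∈ S, Real.log (Ideal.absNorm P) / Ideal.absNorm P := by
    rw [hS, Finset.sum_image]
    · rfl
    · intro v _ w _ hvw
      exact IsDedekindDomain.HeightOneSpectrum.ext hvw
  rw [hSsum, ← Finset.sum_filter_add_sum_filter_not S
    (fun P => Pool.Agent.Helper92.CB.deg K P = 1)]
  have h1 : ∑ P ∈ S.filter (fun P => Pool.Agent.Helper92.CB.deg K P = 1),
      Real.log (Ideal.absNorm P) / Ideal.absNorm P ≤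
      n * (Real.log y - Real.log x + C) := by
    have e1 : ∑ P ∈ S.filter (fun P => Pool.Agent.Helper92.CB.deg K P = 1),
        Real.log (Ideal.absNorm P) / Ideal.absNorm P =
        ∑ P ∈ S.filter (fun P => Pool.Agent.Helper92.CB.deg K P = 1),
          (fun p : ℕ => Real.log p / (p : ℝ)) (Pool.Agent.Helper92.CB.chr K P) := by
      refine Finset.sum_congr rfl fun P hP => ?_
      have hP' := Finset.mem_filter.mp hP
      have hs := Pool.Agent.Helper92.CB.chr_spec K (hSmem P hP'.1).1 (hSmem P hP'.1).2.1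
      rw [hs.2.2.2, hP'.2, pow_one]
    rw [e1]
    refine (Pool.Agent.Helper92.CB.sum_group K _ (fun P hP => ?_)
      (Pool.Agent.Helper9.Fam.pr y \ Pool.Agent.Helper9.Fam.pr x) (fun P hP => ?_)
      (fun p : ℕ => Real.log p / (p : ℝ)) (fun p => ?_)).trans ?_
    · have hP' := Finset.mem_filter.mp hP
      exact ⟨(hSmem P hP'.1).1, (hSmem P hP'.1).2.1⟩
    · have hP' := Finset.mem_filter.mp hP
      have hs := Pool.Agent.Helper92.CB.chr_spec K (hSmem P hP'.1).1 (hSmem P hP'.1).2.1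
      have he : Ideal.absNorm P = Pool.Agent.Helper92.CB.chr K P := by
        rw [hs.2.2.2, hP'.2, pow_one]
      rw [Finset.mem_sdiff, Pool.Agent.Helper9.Fam.mem_pr, Pool.Agent.Helper9.Fam.mem_pr, ← he]
      refine ⟨⟨he ▸ hs.1, (hSmem P hP'.1).2.2.2⟩, fun h => ?_⟩
      exact absurd h.2 (not_le.mpr (hSmem P hP'.1).2.2.1)
    · rcases Nat.eq_zero_or_pos p with h | h
      · subst h; simp
      · exact div_nonneg (Real.log_nonneg (by exact_mod_cast h)) (Nat.cast_nonneg _)
    · exact mul_le_mul_of_nonneg_left (hC x y hx hxy) hn0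
  have h2 : ∑ P ∈ S.filter (fun P => ¬ Pool.Agent.Helper92.CB.deg K P = 1),
      Real.log (Ideal.absNorm P) / Ideal.absNorm P ≤ n * D := by
    have e1 : ∑ P ∈ S.filter (fun P => ¬ Pool.Agent.Helper92.CB.deg K P = 1),
        Real.log (Ideal.absNorm P) / Ideal.absNorm P ≤
        ∑ P ∈ S.filter (fun P => ¬ Pool.Agent.Helper92.CB.deg K P = 1),
          (fun m : ℕ => 4 / (m : ℝ) ^ ((3 : ℝ) / 2)) (Pool.Agent.Helper92.CB.chr K P) := by
      refine Finset.sum_le_sum fun P hP => ?_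
      have hP' := Finset.mem_filter.mp hP
      have hs := Pool.Agent.Helper92.CB.chr_spec K (hSmem P hP'.1).1 (hSmem P hP'.1).2.1
      set c : ℕ := Pool.Agent.Helper92.CB.chr K P with hc
      have hf : 2 ≤ Pool.Agent.Helper92.CB.deg K P := by
        have := hs.2.1
        have h3 := hP'.2
        omega
      have hp0 : (0 : ℝ) < c := by exact_mod_cast hs.1.pos
      have hp1 : (1 : ℝ) ≤ c := by exact_mod_cast hs.1.one_lt.le
      have hN : ((c : ℝ)) ^ 2 ≤ Ideal.absNorm P := by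
        rw [hs.2.2.2]
        push_cast
        exact pow_le_pow_right₀ hp1 hf
      have hN0 : (0 : ℝ) < Ideal.absNorm P := lt_of_lt_of_le (by positivity) hN
      have hl : Real.log (Ideal.absNorm P) ≤ 4 * (Ideal.absNorm P : ℝ) ^ ((1 : ℝ) / 4) := by
        have := Real.log_le_rpow_div hN0.le (show (0 : ℝ) < 1 / 4 by norm_num)
        calc Real.log (Ideal.absNorm P) ≤ (Ideal.absNorm P : ℝ) ^ ((1 : ℝ) / 4) / (1 / 4) := this
          _ = 4 * (Ideal.absNorm P : ℝ) ^ ((1 : ℝ) / 4) := by ring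
      have hr : (c : ℝ) ^ ((3 : ℝ) / 2) ≤ (Ideal.absNorm P : ℝ) ^ ((3 : ℝ) / 4) := by
        calc (c : ℝ) ^ ((3 : ℝ) / 2) = (((c : ℝ)) ^ (2 : ℕ)) ^ ((3 : ℝ) / 4) := by
              rw [← Real.rpow_natCast, ← Real.rpow_mul hp0.le]
              norm_num
          _ ≤ (Ideal.absNorm P : ℝ) ^ ((3 : ℝ) / 4) :=
              Real.rpow_le_rpow (by positivity) hN (by norm_num)
      have hr0 : 0 < (c : ℝ) ^ ((3 : ℝ) / 2) := by positivity
      have hr1 : 0 < (Ideal.absNorm P : ℝ) ^ ((3 : ℝ) / 4) := by positivity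
      have hprod : (Ideal.absNorm P : ℝ) ^ ((1 : ℝ) / 4) * (Ideal.absNorm P : ℝ) ^ ((3 : ℝ) / 4) =
          Ideal.absNorm P := by
        rw [← Real.rpow_add hN0]
        norm_num
      show Real.log (Ideal.absNorm P) / Ideal.absNorm P ≤ 4 / (c : ℝ) ^ ((3 : ℝ) / 2)
      rw [div_le_div_iff₀ hN0 hr0]
      calc Real.log (Ideal.absNorm P) * (c : ℝ) ^ ((3 : ℝ) / 2)
          ≤ (4 * (Ideal.absNorm P : ℝ) ^ ((1 : ℝ) / 4)) * (Ideal.absNorm P : ℝ) ^ ((3 : ℝ) / 4) := by
            refine mul_le_mul hl hr hr0.le (by positivity)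
        _ = 4 * Ideal.absNorm P := by rw [mul_assoc, hprod]
    refine e1.trans ((Pool.Agent.Helper92.CB.sum_group K _ (fun P hP => ?_)
      ((S.filter (fun P => ¬ Pool.Agent.Helper92.CB.deg K P = 1)).image
        (Pool.Agent.Helper92.CB.chr K)) (fun P hP => ?_)
      (fun m : ℕ => 4 / (m : ℝ) ^ ((3 : ℝ) / 2)) (fun p => by positivity)).trans ?_)
    · have hP' := Finset.mem_filter.mp hP
      exact ⟨(hSmem P hP'.1).1, (hSmem P hP'.1).2.1⟩
    · exact Finset.mem_image_of_mem _ hP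
    · refine mul_le_mul_of_nonneg_left ?_ hn0
      exact hsum.sum_le_tsum _ (fun m _ => by positivity)
  have h3 : n * (Real.log y - Real.log x + C) + n * D ≤
      n * (1 + C + D) * (Real.log y - Real.log x + 1) := by
    have e : n * (1 + C + D) * (Real.log y - Real.log x + 1) -
        (n * (Real.log y - Real.log x + C) + n * D) =
        n * ((C + D) * (Real.log y - Real.log x) + 1) := by ring
    have e2 : 0 ≤ n * ((C + D) * (Real.log y - Real.log x) + 1) := by positivity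
    linarith
  exact (add_le_add h1 h2).trans h3

end Pool.Agent.Helper4.CB
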