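import Pool.Agent.Helper4.CB.STM

/-!
# CB: the strong form of the sieve statement
-/

set_option autoImplicit false

namespace Pool.Agent.Helper4.CB

open NumberField Polynomial

/-- **SX** (strong form of SV): moreover `u = v = r` modulo `m` for a number `r` prime to `m`, and
the bad places do not divide `v` either (the form `v` is sifted as well); `J` may be taken
arbitrarily large. -/
def SieveX (K : Type) [Field K] [NumberField K] (dm : ℕ) : Prop :=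
  ∀ D J0 : ℕ, ∃ J : ℕ, 1 ≤ J ∧ J0 ≤ J ∧ ∀ S : Finset (𝓞 K)[X], S.card ≤ D →
    (∀ P ∈ S, P.Monic ∧ 1 ≤ P.natDegree ∧ P.natDegree ≤ dm ∧
      Irreducible (P.map (algebraMap (𝓞 K) K))) →
    ∀ m1 : ℕ, m1 ≠ 0 → ∀ Z : Finset K, ∃ (m r : ℕ) (u v : 𝓞 K),
      m ≠ 0 ∧ m1 ∣ m ∧ IsSquare m ∧ r.Coprime m ∧ v ≠ 0 ∧
      (m : 𝓞 K) ∣ u - r ∧ (m : 𝓞 K) ∣ v - r ∧ IsCoprime u ((m : 𝓞 K) * v) ∧
      (u : K) / (m * v) ∉ Z ∧
      ∀ p : Pl K, nm p ≡ 1 [MOD 2 ^ J] → v ∉ p.asIdeal ∧ ∀ P ∈ S, hv P u (m * v) ∉ p.asIdeal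

end Pool.Agent.Helper4.CB
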