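import Pool.Agent.Helper4.CB.Defs

/-!
# CB: the statements SV (sieve) and PW (pointwise theorem) for factors of degree at most `dm`
-/

set_option autoImplicit false

namespace Pool.Agent.Helper4.CB

open NumberField Polynomial

/-- the homogenised value `v ^ d P(u / v)` -/
noncomputable def hv {K : Type} [Field K] [NumberField K] (P : (𝓞 K)[X]) (u v : 𝓞 K) : 𝓞 K :=
  (P.scaleRoots v).eval u

/-- **SV**: for given `K` and `D` there is `J` such that for all sets `S` of at most `D` monic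
irreducible polynomials of degree at most `dm` over `𝓞 K` there are `m`, `u`, `v` such that no place
`p` with `N p = 1` mod `2 ^ J` divides one of the values `P(u, m v)`. -/
def SieveStmt (K : Type) [Field K] [NumberField K] (dm : ℕ) : Prop :=
  ∀ D : ℕ, ∃ J : ℕ, 1 ≤ J ∧ ∀ S : Finset (𝓞 K)[X], S.card ≤ D →
    (∀ P ∈ S, P.Monic ∧ 1 ≤ P.natDegree ∧ P.natDegree ≤ dm ∧
      Irreducible (P.map (algebraMap (𝓞 K) K))) →
    ∀ m1 : ℕ, m1 ≠ 0 → ∀ Z : Finset K, ∃ (m : ℕ) (u v : 𝓞 K) (T : ℝ),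
      m ≠ 0 ∧ m1 ∣ m ∧ IsSquare m ∧ v ≠ 0 ∧ 0 < T ∧ IsCoprime u ((m : 𝓞 K) * v) ∧
      (u : K) / (m * v) ∉ Z ∧
      ∀ P ∈ S, (∀ φ : K →+* ℂ, (T / 2) ^ P.natDegree ≤ ‖φ (hv P u (m * v))‖ ∧
          ‖φ (hv P u (m * v))‖ ≤ (2 * T) ^ P.natDegree) ∧
        ∀ p : Pl K, hv P u (m * v) ∈ p.asIdeal → ¬ nm p ≡ 1 [MOD 2 ^ J]

/-- **PW**: one finite extension `L` of `K` for all pairs of polynomials with irreducible factors
of degree at most `dm` and bounded degree. -/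
def PointStmt (K : Type) [Field K] [NumberField K] (dm : ℕ) : Prop :=
  ∀ D : ℕ, ∃ (L : Type) (_ : Field L) (_ : Algebra K L), FiniteDimensional K L ∧
    ∀ a b : K[X], a ≠ 0 → b.Monic → Even b.natDegree → (a * b).natDegree ≤ D →
    (∀ P : K[X], Irreducible P → P ∣ a * b → P.natDegree ≤ dm) →
    ∀ Z : Finset K, ∃ s : K, s ∉ Z ∧ a.eval s ≠ 0 ∧ b.eval s ≠ 0 ∧
      ∃ x y z : L, (x ≠ 0 ∨ y ≠ 0 ∨ z ≠ 0) ∧
        x ^ 2 = algebraMap K L (a.eval s) * y ^ 2 + algebraMap K L (b.eval s) * z ^ 2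

end Pool.Agent.Helper4.CB
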