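import Pool.Agent.Helper79.CB.CoreMain

/-!
# CB, piece CORE: points without bad primes
-/

set_option autoImplicit false

namespace Pool.Agent.Helper4.CB

open Finset

open Classical in
theorem core (n D k : ℕ) (hn : 1 ≤ n) (Cm : ℝ) : ∃ (Y0 : ℕ) (ε : ℝ), 0 < ε ∧
    ∀ (G : Type) [AddCommGroup G] (S : Sys (2 * n) G), S.D = D → (∀ q, Y0 ≤ S.nm q) → S.Mert Cm →
    ∀ bad : Set S.Q,
    (∀ x : ℕ, 1 ≤ x → ∑ q ∈ (S.le x).filter (fun q => q ∈ bad), Real.log (S.nm q) / S.nm q ≤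
      ε * Real.log x) →
    ∀ (F : Fin k → Fac n S),
    (∀ q ∈ bad, ∀ g ∈ S.E q, g ∈ S.Γ q ∨ ∃ l, ∃ p : (F l).P, (F l).un p = q ∧ g ∈ (F l).Λ p) →
    ∀ (Γ0 : AddSubgroup G) (x0 : G) (τ : ℕ → G) (C : ℕ), Γ0.index ≠ 0 →
    (∀ T : Finset S.Q, Γ0 ⊔ T.inf S.Γ = ⊤) →
    -- the cofactor of a bad prime
    (∀ X : ℕ, 1 ≤ X → ∀ g ∈ bx S.e (τ X) X, g - x0 ∈ Γ0 → ∀ l, ∀ p : (F l).P,
      (F l).un p ∈ bad → g ∈ (F l).Λ p → ∃ q, g ∈ S.E q ∧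
        S.nm q * (F l).pn p ≤ C * X ^ ((F l).d * n)) →
    -- common divisors
    (∀ X : ℕ, 1 ≤ X → ∀ g ∈ bx S.e (τ X) X, ∀ q, g ∈ S.Γ q → S.nm q ≤ C * X ^ n) →
    (∀ q, ∀ ρ : ℕ, S.nm q ≤ ρ ^ n → Rad S.e (S.Γ q) (C * ρ)) →
    (∀ T : Finset S.Q, ∑ q ∈ T, (S.nm q : ℝ) ^ (-(3 / 2) : ℝ) ≤ C) →
    ∃ X0 : ℕ, ∀ X : ℕ, X0 ≤ X → (X : ℝ) ^ ((2 * n : ℝ) - 1 / 2) ≤
      ((bx S.e (τ X) X).filter (fun g => g - x0 ∈ Γ0 ∧ (∀ q ∈ bad, g ∉ S.E q) ∧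
        ∀ q, g ∉ S.Γ q)).card := by
  exact Pool.Agent.Helper79.CB.core n D k hn Cm

end Pool.Agent.Helper4.CB
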