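import Pool.Agent.Helper4.CB.Defs

/-!
# CB, piece BAL: balancing the archimedean absolute values
-/

set_option autoImplicit false

namespace Pool.Agent.Helper4.CB

open NumberField

theorem rn_nonneg {K : Type} [Field K] [NumberField K] (c : 𝓞 K) : 0 ≤ rn c := by
  unfold rn
  positivity

theorem rn_pow {K : Type} [Field K] [NumberField K] (c : 𝓞 K) :
    rn c ^ Module.finrank ℚ K = (|Algebra.norm ℤ c| : ℝ) := by
  unfold rn
  rw [← Real.rpow_natCast, ← Real.rpow_mul (abs_nonneg _)]
  have : (Module.finrank ℚ K : ℝ) ≠ 0 := by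
    have := Module.finrank_pos (R := ℚ) (M := K)
    positivity
  rw [one_div, inv_mul_cancel₀ this, Real.rpow_one]

/-- the absolute value of the norm is the product over the infinite places -/
theorem abs_norm_eq_prod_place {K : Type} [Field K] [NumberField K] (x : 𝓞 K) :
    (|Algebra.norm ℤ x| : ℝ) = ∏ w : InfinitePlace K, w (x : K) ^ w.mult := by
  rw [InfinitePlace.prod_eq_abs_norm]
  have h2 : ((Algebra.norm ℤ x : ℤ) : ℚ) = Algebra.norm ℚ (x : K) := Algebra.coe_norm_int x
  rw [← h2]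
  push_cast
  rfl

theorem rn_mul {K : Type} [Field K] [NumberField K] (c c' : 𝓞 K) :
    rn (c * c') = rn c * rn c' := by
  unfold rn
  rw [map_mul, Int.cast_mul, abs_mul, Real.mul_rpow (abs_nonneg _) (abs_nonneg _)]

theorem one_le_rn {K : Type} [Field K] [NumberField K] {c : 𝓞 K} (hc : c ≠ 0) : 1 ≤ rn c := by
  unfold rn
  apply Real.one_le_rpow
  · have h1 : Algebra.norm ℤ c ≠ 0 := by
      rw [Ne, Algebra.norm_eq_zero_iff]
      exact hc
    have h2 : 1 ≤ |Algebra.norm ℤ c| := Int.one_le_abs h1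
    exact_mod_cast h2
  · positivity

/-- **BAL.** Balancing the archimedean absolute values by the square of an integer of bounded
norm (Minkowski). -/
theorem balance (K : Type) [Field K] [NumberField K] : ∃ C : ℕ, 0 < C ∧ ∀ β : 𝓞 K, β ≠ 0 →
    ∃ lam : 𝓞 K, lam ≠ 0 ∧ lam ∣ (C : 𝓞 K) ∧
      ∀ φ : K →+* ℂ, ‖φ ((β * lam ^ 2 : 𝓞 K) : K)‖ ≤ C * rn (β * lam ^ 2) := by
  classical
  set n := Module.finrank ℚ K with hn
  have hnpos : 0 < n := Module.finrank_pos
  obtain ⟨c₀, hc₀⟩ := ENNReal.exists_nat_gt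
    (mixedEmbedding.minkowskiBound_lt_top K (1 : (FractionalIdeal (nonZeroDivisors (𝓞 K)) K)ˣ)).ne
  set c : ℕ := c₀ + 1 with hc
  have hc1 : 1 ≤ c := by omega
  refine ⟨(c ^ n + c ^ 2).factorial, Nat.factorial_pos _, ?_⟩
  intro β hβ
  have hw : ∀ w : InfinitePlace K, 0 < w (β : K) := fun w => by
    rw [InfinitePlace.pos_iff]
    exact_mod_cast hβ
  have hrn : 0 < rn β := lt_of_lt_of_le one_pos (one_le_rn hβ)
  let g : InfinitePlace K → NNReal := fun w => (c : NNReal) * NNReal.sqrt (Real.toNNReal (rn β / w (β : K)))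
  have hg2 : ∀ w, (g w : ℝ) ^ 2 = (c : ℝ) ^ 2 * (rn β / w (β : K)) := by
    intro w
    simp only [g]
    push_cast
    rw [mul_pow, Real.sq_sqrt (by positivity), Real.coe_toNNReal _ (by have := hw w; positivity)]
  have hprod : ∏ w, (g w : ℝ) ^ w.mult = (c : ℝ) ^ n := by
    have h1 : (∏ w, (g w : ℝ) ^ w.mult) ^ 2 = ((c : ℝ) ^ n) ^ 2 := by
      rw [← Finset.prod_pow]
      have h2 : ∀ w : InfinitePlace K, ((g w : ℝ) ^ w.mult) ^ 2 =
          (((c : ℝ) ^ 2) ^ w.mult * rn β ^ w.mult) / w (β : K) ^ w.mult := by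
        intro w
        rw [← pow_mul, mul_comm w.mult 2, pow_mul, hg2, mul_pow, div_pow, mul_div_assoc]
      simp_rw [h2]
      rw [Finset.prod_div_distrib, Finset.prod_mul_distrib, Finset.prod_pow_eq_pow_sum,
        Finset.prod_pow_eq_pow_sum, InfinitePlace.sum_mult_eq, rn_pow, ← abs_norm_eq_prod_place]
      have h3 : (|Algebra.norm ℤ β| : ℝ) ≠ 0 := by
        rw [← rn_pow]
        positivity
      rw [mul_div_assoc, div_self h3, mul_one, ← pow_mul, ← pow_mul, mul_comm 2]
    have h4 : 0 ≤ ∏ w, (g w : ℝ) ^ w.mult := by positivity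
    exact (pow_left_inj₀ h4 (by positivity) two_ne_zero).1 h1
  have hvol : mixedEmbedding.minkowskiBound K
      (1 : (FractionalIdeal (nonZeroDivisors (𝓞 K)) K)ˣ) <
      MeasureTheory.volume (mixedEmbedding.convexBodyLT K g) := by
    rw [mixedEmbedding.convexBodyLT_volume]
    refine lt_of_lt_of_le hc₀ ?_
    have h1 : ((∏ w, (g w) ^ w.mult : NNReal) : ENNReal) = ((c ^ n : ℕ) : ENNReal) := by
      have h2 : (∏ w, (g w) ^ w.mult : NNReal) = ((c ^ n : ℕ) : NNReal) := by
        apply NNReal.coe_injective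
        push_cast
        exact hprod
      rw [h2]
      rfl
    have h5 : (c₀ : ENNReal) ≤ ((c ^ n : ℕ) : ENNReal) := by
      have h6 : c₀ ≤ c ^ n := by
        calc c₀ ≤ c := by omega
          _ = c ^ 1 := (pow_one c).symm
          _ ≤ c ^ n := Nat.pow_le_pow_right hc1 hnpos
      exact_mod_cast h6
    refine h5.trans ?_
    rw [← h1]
    have h7 : (1 : ENNReal) ≤ (mixedEmbedding.convexBodyLTFactor K : ENNReal) :=
      ENNReal.one_le_coe_iff.2 (mixedEmbedding.one_le_convexBodyLTFactor K)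
    calc ((∏ w, (g w) ^ w.mult : NNReal) : ENNReal)
        = 1 * ((∏ w, (g w) ^ w.mult : NNReal) : ENNReal) := (one_mul _).symm
      _ ≤ (mixedEmbedding.convexBodyLTFactor K : ENNReal) *
          ((∏ w, (g w) ^ w.mult : NNReal) : ENNReal) := mul_le_mul_left h7 _
  obtain ⟨lam, hlam0, hlam⟩ := mixedEmbedding.exists_ne_zero_mem_ringOfIntegers_lt K hvol
  have hCc : ((c : ℝ) ^ 2) ≤ ((c ^ n + c ^ 2).factorial : ℝ) := by
    have h1 : c ^ 2 ≤ (c ^ n + c ^ 2).factorial :=
      le_trans (by omega) (Nat.self_le_factorial _)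
    exact_mod_cast h1
  refine ⟨lam, hlam0, ?_, ?_⟩
  · have h1 : ((Ideal.absNorm (Ideal.span {lam}) : ℕ) : 𝓞 K) ∈ Ideal.span {lam} :=
      Ideal.absNorm_mem _
    rw [Ideal.mem_span_singleton] at h1
    refine h1.trans ?_
    apply Nat.cast_dvd_cast
    apply Nat.dvd_factorial
    · rw [Nat.pos_iff_ne_zero, Ne, Ideal.absNorm_eq_zero_iff, Ideal.span_singleton_eq_bot]
      exact hlam0
    · have h2 : (Ideal.absNorm (Ideal.span {lam}) : ℝ) ≤ (c : ℝ) ^ n := by
        rw [Ideal.absNorm_span_singleton, Nat.cast_natAbs, Int.cast_abs, abs_norm_eq_prod_place,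
          ← hprod]
        apply Finset.prod_le_prod
        · intro w _
          positivity
        · intro w _
          exact pow_le_pow_left₀ (by positivity) (hlam w).le _
      have h3 : Ideal.absNorm (Ideal.span {lam}) ≤ c ^ n := by exact_mod_cast h2
      omega
  · intro φ
    have h1 : ‖φ ((β * lam ^ 2 : 𝓞 K) : K)‖ =
        (InfinitePlace.mk φ) (β : K) * (InfinitePlace.mk φ) (lam : K) ^ 2 := by
      rw [InfinitePlace.apply, InfinitePlace.apply]
      simp only [map_mul, map_pow, norm_mul, norm_pow]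
    rw [h1]
    have h2 : (InfinitePlace.mk φ) (lam : K) ^ 2 ≤
        (c : ℝ) ^ 2 * (rn β / (InfinitePlace.mk φ) (β : K)) := by
      rw [← hg2]
      exact pow_le_pow_left₀ (by positivity) (hlam _).le _
    have h3 := hw (InfinitePlace.mk φ)
    calc (InfinitePlace.mk φ) (β : K) * (InfinitePlace.mk φ) (lam : K) ^ 2
        ≤ (InfinitePlace.mk φ) (β : K) *
          ((c : ℝ) ^ 2 * (rn β / (InfinitePlace.mk φ) (β : K))) :=
          mul_le_mul_of_nonneg_left h2 h3.le
      _ = (c : ℝ) ^ 2 * rn β := by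
          field_simp
      _ ≤ ((c ^ n + c ^ 2).factorial : ℝ) * rn (β * lam ^ 2) := by
          apply mul_le_mul hCc _ hrn.le (by positivity)
          rw [rn_mul, pow_two, rn_mul]
          have h4 := one_le_rn hlam0
          have h5 : 1 ≤ rn lam * rn lam := by nlinarith
          nlinarith

/-- an element which is nearly balanced from above and below is balanced -/
theorem rn_of_bounds {K : Type} [Field K] [NumberField K] {c : 𝓞 K} {s : ℝ} (hs : 0 ≤ s)
    (h : ∀ φ : K →+* ℂ, s ≤ ‖φ c‖) : s ≤ rn c := by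
  have hnpos : 0 < Module.finrank ℚ K := Module.finrank_pos
  refine le_of_pow_le_pow_left₀ hnpos.ne' (rn_nonneg c) ?_
  rw [rn_pow, abs_norm_eq_prod_place, ← InfinitePlace.sum_mult_eq (K := K),
    ← Finset.prod_pow_eq_pow_sum]
  apply Finset.prod_le_prod
  · intro w _
    positivity
  · intro w _
    apply pow_le_pow_left₀ hs
    rw [← InfinitePlace.norm_embedding_eq]
    exact h _

end Pool.Agent.Helper4.CB
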