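import Pool.Agent.Helper4.CB.Defs

/-!
# CB, piece BH: the abstract sieve of small dimension
-/

set_option autoImplicit false

namespace Pool.Agent.Helper4.CB

open Finset

/-- elementary symmetric sums -/
private noncomputable def es {ι : Type} (f : ι → ℝ) (S : Finset ι) (k : ℕ) : ℝ :=
  ∑ U ∈ S.powersetCard k, ∏ i ∈ U, f i

private theorem es_zero {ι : Type} (f : ι → ℝ) (S : Finset ι) : es f S 0 = 1 := by
  simp [es]

private theorem es_empty_succ {ι : Type} (f : ι → ℝ) (k : ℕ) : es f ∅ (k + 1) = 0 := by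
  unfold es
  rw [Finset.powersetCard_eq_empty.2 (by simp)]
  simp

private theorem es_nonneg {ι : Type} {f : ι → ℝ} {S : Finset ι} (hf : ∀ i ∈ S, 0 ≤ f i) (k : ℕ) :
    0 ≤ es f S k := by
  unfold es
  refine Finset.sum_nonneg fun U hU => Finset.prod_nonneg fun i hi => hf i ?_
  exact (Finset.mem_powersetCard.1 hU).1 hi

private theorem es_insert {ι : Type} [DecidableEq ι] (f : ι → ℝ) {S : Finset ι} {j : ι}
    (hj : j ∉ S) (k : ℕ) :
    es f (insert j S) (k + 1) = es f S (k + 1) + f j * es f S k := by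
  unfold es
  have hd : ∀ U ∈ S.powersetCard k, j ∉ U := fun U hU h =>
    hj ((Finset.mem_powersetCard.1 hU).1 h)
  rw [Finset.powersetCard_succ_insert hj, Finset.sum_union, Finset.sum_image, Finset.mul_sum]
  · congr 1
    refine Finset.sum_congr rfl fun U hU => ?_
    rw [Finset.prod_insert (hd U hU)]
  · intro U hU U' hU' h
    have h1 := congrArg (fun W => Finset.erase W j) h
    simpa [Finset.erase_insert (hd U hU), Finset.erase_insert (hd U' hU')] using h1
  · rw [Finset.disjoint_left]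
    intro U hU hU'
    obtain ⟨W, -, rfl⟩ := Finset.mem_image.1 hU'
    exact hj ((Finset.mem_powersetCard.1 hU).1 (Finset.mem_insert_self _ _))

/-- alternating sums -/
private noncomputable def ds {ι : Type} (f : ι → ℝ) (S : Finset ι) (K : ℕ) : ℝ :=
  ∑ k ∈ range (K + 1), (-1) ^ k * es f S k

private theorem ds_insert {ι : Type} [DecidableEq ι] (f : ι → ℝ) {S : Finset ι} {j : ι}
    (hj : j ∉ S) (K : ℕ) :
    ds f (insert j S) (K + 1) = ds f S (K + 1) - f j * ds f S K := by
  unfold ds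
  rw [Finset.sum_range_succ' _ (K + 1), Finset.sum_range_succ' (fun k => (-1) ^ k * es f S k) (K + 1),
    es_zero, es_zero, Finset.mul_sum, add_sub_right_comm, ← Finset.sum_sub_distrib]
  congr 1
  refine Finset.sum_congr rfl fun k _ => ?_
  rw [es_insert f hj]
  ring

private theorem ds_zero {ι : Type} (f : ι → ℝ) (S : Finset ι) : ds f S 0 = 1 := by
  simp [ds, es_zero]

private theorem ds_empty {ι : Type} (f : ι → ℝ) (K : ℕ) : ds f ∅ K = 1 := by
  unfold ds
  rw [Finset.sum_range_succ', es_zero]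
  simp [es_empty_succ]

private theorem bonf {ι : Type} (f : ι → ℝ) (S : Finset ι) (hf : ∀ i ∈ S, 0 ≤ f i ∧ f i ≤ 1) :
    ∀ K : ℕ, 0 ≤ (-1) ^ K * (ds f S K - ∏ i ∈ S, (1 - f i)) ∧
      (-1) ^ K * (ds f S K - ∏ i ∈ S, (1 - f i)) ≤ es f S (K + 1) := by
  classical
  induction S using Finset.induction_on with
  | empty =>
    intro K
    rw [ds_empty, es_empty_succ]
    simp
  | @insert j S hj ih =>
    have hfS : ∀ i ∈ S, 0 ≤ f i ∧ f i ≤ 1 := fun i hi => hf i (Finset.mem_insert_of_mem hi)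
    have hj0 := hf j (Finset.mem_insert_self _ _)
    have ih' := ih hfS
    have hP1 : ∏ i ∈ S, (1 - f i) ≤ 1 := Finset.prod_le_one (fun i hi => by
      have := hfS i hi; linarith) (fun i hi => by have := hfS i hi; linarith)
    have hP0 : 0 ≤ ∏ i ∈ S, (1 - f i) := Finset.prod_nonneg (fun i hi => by
      have := hfS i hi; linarith)
    intro K
    rw [Finset.prod_insert hj]
    cases K with
    | zero =>
      have h0 := ih' 0
      rw [ds_zero] at h0 ⊢
      rw [es_insert f hj, es_zero]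
      simp only [pow_zero, one_mul] at h0 ⊢
      constructor
      · nlinarith
      · nlinarith
    | succ K =>
      have h1 := ih' (K + 1)
      have h0 := ih' K
      rw [es_insert f hj, ds_insert f hj]
      set P := ∏ i ∈ S, (1 - f i)
      have e1 : (-1 : ℝ) ^ (K + 1) * (ds f S (K + 1) - f j * ds f S K - (1 - f j) * P) =
          (-1) ^ (K + 1) * (ds f S (K + 1) - P) + f j * ((-1) ^ K * (ds f S K - P)) := by
        ring
      rw [e1]
      constructor
      · have := mul_nonneg hj0.1 h0.1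
        linarith [h1.1]
      · have := mul_le_mul_of_nonneg_left h0.2 hj0.1
        linarith [h1.2]

private theorem bonf_abs {ι : Type} (f : ι → ℝ) (S : Finset ι) (hf : ∀ i ∈ S, 0 ≤ f i ∧ f i ≤ 1)
    (K : ℕ) : |ds f S K - ∏ i ∈ S, (1 - f i)| ≤ es f S (K + 1) := by
  have h := bonf f S hf K
  have e1 : |(-1 : ℝ) ^ K * (ds f S K - ∏ i ∈ S, (1 - f i))| = |ds f S K - ∏ i ∈ S, (1 - f i)| := by
    rw [abs_mul, abs_pow, abs_neg, abs_one, one_pow, one_mul]
  rw [← e1, abs_of_nonneg h.1]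
  exact h.2

private theorem es_le_pow {ι : Type} {f : ι → ℝ} {S : Finset ι} (hf : ∀ i ∈ S, 0 ≤ f i) :
    ∀ k : ℕ, es f S k ≤ (∑ i ∈ S, f i) ^ k := by
  classical
  induction S using Finset.induction_on with
  | empty =>
    intro k
    cases k with
    | zero => simp [es_zero]
    | succ k => rw [es_empty_succ]; simp
  | @insert j S hj ih =>
    have hfS : ∀ i ∈ S, 0 ≤ f i := fun i hi => hf i (Finset.mem_insert_of_mem hi)
    have hj0 := hf j (Finset.mem_insert_self _ _)
    have ih' := ih hfS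
    have hσ : 0 ≤ ∑ i ∈ S, f i := Finset.sum_nonneg hfS
    intro k
    cases k with
    | zero => simp [es_zero]
    | succ k =>
      rw [es_insert f hj, Finset.sum_insert hj]
      set σ := ∑ i ∈ S, f i
      have h1 := ih' (k + 1)
      have h2 := mul_le_mul_of_nonneg_left (ih' k) hj0
      have h3 : σ ^ k ≤ (f j + σ) ^ k := pow_le_pow_left₀ hσ (by linarith) k
      have h4 : (f j + σ) * σ ^ k ≤ (f j + σ) * (f j + σ) ^ k :=
        mul_le_mul_of_nonneg_left h3 (by linarith)
      calc es f S (k + 1) + f j * es f S k ≤ σ ^ (k + 1) + f j * σ ^ k := by linarith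
        _ = (f j + σ) * σ ^ k := by ring
        _ ≤ (f j + σ) * (f j + σ) ^ k := h4
        _ = (f j + σ) ^ (k + 1) := by ring

private theorem sum_es_le {ι : Type} {f : ι → ℝ} {S : Finset ι} (hf : ∀ i ∈ S, 0 ≤ f i) (N : ℕ) :
    ∑ k ∈ range N, es f S k ≤ Real.exp (∑ i ∈ S, f i) := by
  classical
  induction S using Finset.induction_on with
  | empty =>
    rw [Finset.sum_empty, Real.exp_zero]
    cases N with
    | zero => simp
    | succ N =>
      rw [Finset.sum_range_succ', es_zero]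
      simp [es_empty_succ]
  | @insert j S hj ih =>
    have hfS : ∀ i ∈ S, 0 ≤ f i := fun i hi => hf i (Finset.mem_insert_of_mem hi)
    have hj0 := hf j (Finset.mem_insert_self _ _)
    have ih' := ih hfS
    rw [Finset.sum_insert hj, Real.exp_add]
    have h0 : 0 ≤ ∑ k ∈ range N, es f S k := Finset.sum_nonneg fun k _ => es_nonneg hfS k
    have h1 : ∑ k ∈ range N, es f (insert j S) k ≤ (1 + f j) * ∑ k ∈ range N, es f S k := by
      cases N with
      | zero => simp
      | succ N =>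
        have h2 : ∑ k ∈ range N, es f S k ≤ ∑ k ∈ range (N + 1), es f S k := by
          rw [Finset.sum_range_succ]
          linarith [es_nonneg hfS N]
        have h3 : ∑ k ∈ range (N + 1), es f (insert j S) k =
            ∑ k ∈ range (N + 1), es f S k + f j * ∑ k ∈ range N, es f S k := by
          rw [Finset.sum_range_succ', Finset.sum_range_succ' (fun k => es f S k), es_zero, es_zero,
            Finset.mul_sum, add_right_comm, ← Finset.sum_add_distrib]
          congr 1
          exact Finset.sum_congr rfl fun k _ => es_insert f hj k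
        rw [h3]
        nlinarith
    have h4 : 1 + f j ≤ Real.exp (f j) := by linarith [Real.add_one_le_exp (f j)]
    calc ∑ k ∈ range N, es f (insert j S) k ≤ (1 + f j) * ∑ k ∈ range N, es f S k := h1
      _ ≤ Real.exp (f j) * Real.exp (∑ i ∈ S, f i) := by
        apply mul_le_mul h4 ih' h0 (Real.exp_pos _).le

private theorem one_sub_ge {g : ℝ} (h0 : 0 ≤ g) (h1 : g ≤ 1 / 2) : Real.exp (-(2 * g)) ≤ 1 - g := by
  have h2 : 1 + 2 * g ≤ Real.exp (2 * g) := by linarith [Real.add_one_le_exp (2 * g)]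
  rw [Real.exp_neg, inv_le_comm₀ (Real.exp_pos _) (by linarith)]
  refine le_trans ?_ h2
  rw [inv_le_comm₀ (by linarith) (by linarith), inv_eq_one_div, div_le_iff₀ (by linarith)]
  nlinarith

private theorem prod_ge {ι : Type} {g : ι → ℝ} {S : Finset ι} (h0 : ∀ i ∈ S, 0 ≤ g i)
    (h1 : ∀ i ∈ S, g i ≤ 1 / 2) :
    Real.exp (-(2 * ∑ i ∈ S, g i)) ≤ ∏ i ∈ S, (1 - g i) := by
  have e1 : Real.exp (-(2 * ∑ i ∈ S, g i)) = ∏ i ∈ S, Real.exp (-(2 * g i)) := by
    rw [← Real.exp_sum]
    congr 1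
    rw [Finset.sum_neg_distrib, Finset.mul_sum]
  rw [e1]
  exact Finset.prod_le_prod (fun i _ => (Real.exp_pos _).le) fun i hi => one_sub_ge (h0 i hi) (h1 i hi)

open Classical in
/-- the partly sifted counts -/
private noncomputable def cnt {α ι : Type} (A : Finset α) (I : Finset ι) (E : ι → α → Prop)
    (ρ : ι → ℕ) (r : ℕ) (T : Finset ι) : Finset α :=
  A.filter (fun a => (∀ i ∈ T, E i a) ∧ ∀ j ∈ I, r ≤ ρ j → ¬ E j a)

open Classical in
private theorem step {α ι : Type} (A : Finset α) (I : Finset ι) (E : ι → α → Prop)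
    (ρ : ι → ℕ) (g : ι → ℝ) (κ η Y : ℝ)
    (hg0 : ∀ i ∈ I, 0 ≤ g i) (hg1 : ∀ i ∈ I, g i ≤ 1 / 2) (hκ0 : 0 ≤ κ)
    (hG : ∀ r, ∑ i ∈ I.filter (fun i => ρ i = r), g i ≤ κ)
    (hη : 0 ≤ η) (hY : 0 ≤ Y) (r : ℕ)
    (hr : ∀ T ⊆ I, (∀ i ∈ T, ρ i < r + 1) → (∀ s, (T.filter (fun i => ρ i = s)).card ≤ 2 * s + 3) →
      |((cnt A I E ρ (r + 1) T).card : ℝ) -
          Y * (∏ i ∈ T, g i) * ∏ i ∈ I.filter (fun i => r + 1 ≤ ρ i), (1 - g i)| ≤
        η * (Y * (∏ i ∈ T, g i) * ∏ i ∈ I.filter (fun i => r + 1 ≤ ρ i), (1 - g i)))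
    (T : Finset ι) (hT : T ⊆ I) (hTr : ∀ i ∈ T, ρ i < r)
    (hTc : ∀ s, (T.filter (fun i => ρ i = s)).card ≤ 2 * s + 3) :
    |((cnt A I E ρ r T).card : ℝ) -
          Y * (∏ i ∈ T, g i) * ∏ i ∈ I.filter (fun i => r ≤ ρ i), (1 - g i)| ≤
        (Real.exp (3 * κ) * η + 2 * Real.exp (2 * κ) * κ ^ (2 * r + 3)) *
          (Y * (∏ i ∈ T, g i) * ∏ i ∈ I.filter (fun i => r ≤ ρ i), (1 - g i)) := by
  set J := I.filter (fun i => ρ i = r) with hJ
  set V := ∏ i ∈ I.filter (fun i => r + 1 ≤ ρ i), (1 - g i) with hV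
  set G := ∏ i ∈ T, g i with hGdef
  have hJI : J ⊆ I := Finset.filter_subset _ _
  have hJr : ∀ j ∈ J, ρ j = r := fun j hj => (Finset.mem_filter.1 hj).2
  have hgJ0 : ∀ i ∈ J, 0 ≤ g i := fun i hi => hg0 i (hJI hi)
  have hgJ1 : ∀ i ∈ J, g i ≤ 1 / 2 := fun i hi => hg1 i (hJI hi)
  have hV0 : 0 ≤ V := Finset.prod_nonneg fun i hi => by
    have := hg1 i (Finset.mem_filter.1 hi).1
    linarith
  have hG0 : 0 ≤ G := Finset.prod_nonneg fun i hi => hg0 i (hT hi)
  -- splitting of the product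
  have hsplit : ∏ i ∈ I.filter (fun i => r ≤ ρ i), (1 - g i) = (∏ i ∈ J, (1 - g i)) * V := by
    have h1 : I.filter (fun i => r ≤ ρ i) = J ∪ I.filter (fun i => r + 1 ≤ ρ i) := by
      ext i
      simp only [hJ, Finset.mem_filter, Finset.mem_union]
      constructor
      · rintro ⟨h, h'⟩
        rcases Nat.eq_or_lt_of_le h' with h2 | h2
        · exact Or.inl ⟨h, h2.symm⟩
        · exact Or.inr ⟨h, h2⟩
      · rintro (⟨h, h'⟩ | ⟨h, h'⟩)
        · exact ⟨h, h'.ge⟩
        · exact ⟨h, by omega⟩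
    rw [h1, Finset.prod_union]
    rw [Finset.disjoint_left]
    intro i hi hi'
    have h2 := hJr i hi
    have h3 := (Finset.mem_filter.1 hi').2
    omega
  rw [hsplit]
  -- the sets
  set B := cnt A I E ρ (r + 1) T with hB
  set ind : ι → α → ℝ := fun j a => if E j a then 1 else 0 with hind
  have hindb : ∀ a, ∀ i ∈ J, 0 ≤ ind i a ∧ ind i a ≤ 1 := by
    intro a i _
    simp only [hind]
    split_ifs <;> norm_num
  have hc0 : ((cnt A I E ρ r T).card : ℝ) = ∑ a ∈ B, ∏ j ∈ J, (1 - ind j a) := by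
    have h1 : cnt A I E ρ r T = B.filter (fun a => ∀ j ∈ J, ¬ E j a) := by
      ext a
      simp only [hB, cnt, Finset.mem_filter]
      constructor
      · rintro ⟨h, h', h''⟩
        refine ⟨⟨h, h', fun j hj hjr => h'' j hj (by omega)⟩, fun j hj => ?_⟩
        exact h'' j (hJI hj) (hJr j hj).ge
      · rintro ⟨⟨h, h', h''⟩, h3⟩
        refine ⟨h, h', fun j hj hjr => ?_⟩
        rcases Nat.eq_or_lt_of_le hjr with h2 | h2
        · exact h3 j (Finset.mem_filter.2 ⟨hj, h2.symm⟩)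
        · exact h'' j hj h2
    rw [h1, Finset.card_filter]
    push_cast
    refine Finset.sum_congr rfl fun a _ => ?_
    have h2 : ∏ j ∈ J, (1 - ind j a) = ∏ j ∈ J, (if ¬ E j a then (1 : ℝ) else 0) := by
      refine Finset.prod_congr rfl fun j _ => ?_
      simp only [hind]
      split_ifs <;> norm_num
    rw [h2, Finset.prod_ite_zero]
    simp
  have hcU : ∀ U ⊆ J, ((cnt A I E ρ (r + 1) (T ∪ U)).card : ℝ) = ∑ a ∈ B, ∏ j ∈ U, ind j a := by
    intro U hU
    have h1 : cnt A I E ρ (r + 1) (T ∪ U) = B.filter (fun a => ∀ j ∈ U, E j a) := by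
      ext a
      simp only [hB, cnt, Finset.mem_filter]
      constructor
      · rintro ⟨h, h', h''⟩
        exact ⟨⟨h, fun i hi => h' i (Finset.mem_union_left _ hi), h''⟩,
          fun j hj => h' j (Finset.mem_union_right _ hj)⟩
      · rintro ⟨⟨h, h', h''⟩, h3⟩
        refine ⟨h, fun i hi => ?_, h''⟩
        rcases Finset.mem_union.1 hi with hi | hi
        · exact h' i hi
        · exact h3 i hi
    rw [h1, Finset.card_filter]
    push_cast
    refine Finset.sum_congr rfl fun a _ => ?_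
    simp only [hind]
    rw [Finset.prod_ite_zero]
    simp
  set W := Y * G * V with hW
  have hW0 : 0 ≤ W := mul_nonneg (mul_nonneg hY hG0) hV0
  have hmain : ∀ k, k ≤ 2 * r + 3 →
      |(∑ a ∈ B, es (fun j => ind j a) J k) - W * es g J k| ≤ η * (W * es g J k) := by
    intro k hk
    have e1 : ∑ a ∈ B, es (fun j => ind j a) J k =
        ∑ U ∈ J.powersetCard k, ((cnt A I E ρ (r + 1) (T ∪ U)).card : ℝ) := by
      unfold es
      rw [Finset.sum_comm]
      refine Finset.sum_congr rfl fun U hU => ?_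
      rw [hcU U (Finset.mem_powersetCard.1 hU).1]
    rw [e1]
    unfold es
    rw [Finset.mul_sum, ← Finset.sum_sub_distrib, Finset.mul_sum]
    refine (Finset.abs_sum_le_sum_abs _ _).trans (Finset.sum_le_sum fun U hU => ?_)
    obtain ⟨hUJ, hUc⟩ := Finset.mem_powersetCard.1 hU
    have hdis : Disjoint T U := by
      rw [Finset.disjoint_left]
      intro i hi hi'
      have h2 := hJr i (hUJ hi')
      have h3 := hTr i hi
      omega
    have h1 := hr (T ∪ U) (Finset.union_subset hT (hUJ.trans hJI)) (by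
      intro i hi
      rcases Finset.mem_union.1 hi with hi | hi
      · have := hTr i hi; omega
      · have := hJr i (hUJ hi); omega) (by
      intro s
      rw [Finset.filter_union]
      by_cases hs : s = r
      · have h4 : T.filter (fun i => ρ i = s) = ∅ := by
          rw [Finset.filter_eq_empty_iff]
          intro i hi
          have := hTr i hi
          omega
        rw [h4, Finset.empty_union]
        refine (Finset.card_filter_le _ _).trans ?_
        rw [hUc, hs]
        exact hk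
      · have h4 : U.filter (fun i => ρ i = s) = ∅ := by
          rw [Finset.filter_eq_empty_iff]
          intro i hi
          have := hJr i (hUJ hi)
          omega
        rw [h4, Finset.union_empty]
        exact hTc s)
    rw [Finset.prod_union hdis] at h1
    have e2 : Y * ((∏ i ∈ T, g i) * ∏ i ∈ U, g i) * V = W * ∏ i ∈ U, g i := by
      rw [hW, hGdef]; ring
    rw [e2] at h1
    exact h1
  -- Bonferroni
  set K := 2 * r + 2 with hK
  have hb1 : |(∑ a ∈ B, ds (fun j => ind j a) J K) - ∑ a ∈ B, ∏ j ∈ J, (1 - ind j a)| ≤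
      ∑ a ∈ B, es (fun j => ind j a) J (K + 1) := by
    rw [← Finset.sum_sub_distrib]
    refine (Finset.abs_sum_le_sum_abs _ _).trans (Finset.sum_le_sum fun a _ => ?_)
    exact bonf_abs _ _ (hindb a) K
  have hb2 : |ds g J K - ∏ j ∈ J, (1 - g j)| ≤ es g J (K + 1) :=
    bonf_abs _ _ (fun i hi => ⟨hgJ0 i hi, by linarith [hgJ1 i hi]⟩) K
  have hb3 : |(∑ a ∈ B, ds (fun j => ind j a) J K) - W * ds g J K| ≤
      ∑ k ∈ range (K + 1), η * (W * es g J k) := by
    have e1 : (∑ a ∈ B, ds (fun j => ind j a) J K) - W * ds g J K =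
        ∑ k ∈ range (K + 1), (-1) ^ k * ((∑ a ∈ B, es (fun j => ind j a) J k) - W * es g J k) := by
      unfold ds
      rw [Finset.sum_comm, Finset.mul_sum, ← Finset.sum_sub_distrib]
      refine Finset.sum_congr rfl fun k _ => ?_
      rw [← Finset.mul_sum]
      ring
    rw [e1]
    refine (Finset.abs_sum_le_sum_abs _ _).trans (Finset.sum_le_sum fun k hk => ?_)
    rw [abs_mul, abs_pow, abs_neg, abs_one, one_pow, one_mul]
    exact hmain k (by rw [Finset.mem_range] at hk; omega)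
  have hm := hmain (K + 1) (by omega)
  have hes0 : 0 ≤ es g J (K + 1) := es_nonneg hgJ0 _
  have hes1 : es g J (K + 1) ≤ κ ^ (K + 1) :=
    (es_le_pow hgJ0 _).trans (pow_le_pow_left₀ (Finset.sum_nonneg hgJ0) (hG r) _)
  have hsum : ∑ k ∈ range (K + 2), es g J k ≤ Real.exp κ :=
    (sum_es_le hgJ0 _).trans (Real.exp_le_exp.2 (hG r))
  have hP : Real.exp (-(2 * κ)) ≤ ∏ j ∈ J, (1 - g j) := by
    refine le_trans ?_ (prod_ge hgJ0 hgJ1)
    rw [Real.exp_le_exp]
    linarith [hG r]
  set P := ∏ j ∈ J, (1 - g j) with hPdef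
  have hP0 : 0 < P := lt_of_lt_of_le (Real.exp_pos _) hP
  rw [hc0]
  have e3 : Y * G * (P * V) = W * P := by rw [hW]; ring
  rw [e3]
  -- the total
  have htot : |(∑ a ∈ B, ∏ j ∈ J, (1 - ind j a)) - W * P| ≤
      W * (2 * κ ^ (2 * r + 3) + η * Real.exp κ) := by
    have t1 : |(∑ a ∈ B, ∏ j ∈ J, (1 - ind j a)) - W * P| ≤
        |(∑ a ∈ B, ds (fun j => ind j a) J K) - ∑ a ∈ B, ∏ j ∈ J, (1 - ind j a)| +
        |(∑ a ∈ B, ds (fun j => ind j a) J K) - W * ds g J K| + W * |ds g J K - P| := by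
      have e4 : W * |ds g J K - P| = |W * (ds g J K - P)| := by
        rw [abs_mul, abs_of_nonneg hW0]
      rw [e4]
      have e5 : (∑ a ∈ B, ∏ j ∈ J, (1 - ind j a)) - W * P =
          -((∑ a ∈ B, ds (fun j => ind j a) J K) - ∑ a ∈ B, ∏ j ∈ J, (1 - ind j a)) +
          ((∑ a ∈ B, ds (fun j => ind j a) J K) - W * ds g J K) + W * (ds g J K - P) := by ring
      rw [e5]
      refine (abs_add_le _ _).trans (add_le_add ((abs_add_le _ _).trans ?_) le_rfl)
      rw [abs_neg]
    have t2 : (∑ a ∈ B, es (fun j => ind j a) J (K + 1)) ≤ (1 + η) * (W * es g J (K + 1)) := by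
      have := (abs_le.1 hm).2
      linarith
    have t3 : ∑ k ∈ range (K + 1), η * (W * es g J k) =
        η * W * (∑ k ∈ range (K + 2), es g J k) - η * W * es g J (K + 1) := by
      rw [Finset.sum_range_succ _ (K + 1)]
      have : ∑ k ∈ range (K + 1), η * (W * es g J k) = η * W * ∑ k ∈ range (K + 1), es g J k := by
        rw [Finset.mul_sum]
        exact Finset.sum_congr rfl fun k _ => by ring
      rw [this]
      ring
    have t4 : W * |ds g J K - P| ≤ W * es g J (K + 1) := mul_le_mul_of_nonneg_left hb2 hW0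
    have t5 : η * W * (∑ k ∈ range (K + 2), es g J k) ≤ η * W * Real.exp κ :=
      mul_le_mul_of_nonneg_left hsum (mul_nonneg hη hW0)
    have t6 : W * es g J (K + 1) ≤ W * κ ^ (K + 1) := mul_le_mul_of_nonneg_left hes1 hW0
    have e6 : K + 1 = 2 * r + 3 := by omega
    rw [e6] at t6 t4 t3 t2 hb1
    calc |(∑ a ∈ B, ∏ j ∈ J, (1 - ind j a)) - W * P|
        ≤ (1 + η) * (W * es g J (2 * r + 3)) +
          (η * W * Real.exp κ - η * W * es g J (2 * r + 3)) + W * es g J (2 * r + 3) := by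
          linarith
      _ = 2 * (W * es g J (2 * r + 3)) + η * W * Real.exp κ := by ring
      _ ≤ 2 * (W * κ ^ (2 * r + 3)) + η * W * Real.exp κ := by linarith
      _ = _ := by ring
  refine htot.trans ?_
  have hW2 : W ≤ Real.exp (2 * κ) * (W * P) := by
    have h1 : 1 ≤ Real.exp (2 * κ) * P := by
      calc (1 : ℝ) = Real.exp (2 * κ) * Real.exp (-(2 * κ)) := by
            rw [← Real.exp_add]; simp
        _ ≤ _ := mul_le_mul_of_nonneg_left hP (Real.exp_pos _).le
    calc W = W * 1 := (mul_one W).symm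
      _ ≤ W * (Real.exp (2 * κ) * P) := mul_le_mul_of_nonneg_left h1 hW0
      _ = _ := by ring
  have h5 : 0 ≤ 2 * κ ^ (2 * r + 3) + η * Real.exp κ := by positivity
  calc W * (2 * κ ^ (2 * r + 3) + η * Real.exp κ)
      ≤ (Real.exp (2 * κ) * (W * P)) * (2 * κ ^ (2 * r + 3) + η * Real.exp κ) :=
        mul_le_mul_of_nonneg_right hW2 h5
    _ = _ := by
        have e7 : Real.exp (3 * κ) = Real.exp (2 * κ) * Real.exp κ := by
          rw [← Real.exp_add]; congr 1; ring
        rw [e7]; ring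

open Classical in
/-- **BH.** Proof: `S r T = #{a ∈ A | E i a for i ∈ T, no E j a with j ∈ I, r ≤ ρ j}`, claim
`|S r T - Y g(T) V_r| ≤ ε_r Y g(T) V_r`, `V_r = ∏_{ρ j ≥ r} (1 - g j)`, for all
`T ⊆ {i ∈ I | ρ i < r}` with at most `2 s + 3` elements of each rank `s`; from `r + 1` to `r` by
Bonferroni up to order `2 r + 2` with error the terms of order `2 r + 3`:
`ε_r = exp (3 κ) ε_(r+1) + 2 exp (2 κ) κ ^ (2 r + 3)`. -/
theorem bh {α ι : Type} (A : Finset α) (I : Finset ι) (E : ι → α → Prop)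
    (ρ : ι → ℕ) (g : ι → ℝ) (R : ℕ) (κ η Y : ℝ)
    (hg0 : ∀ i ∈ I, 0 ≤ g i) (hg1 : ∀ i ∈ I, g i ≤ 1 / 2) (hρ : ∀ i ∈ I, ρ i < R)
    (hκ0 : 0 ≤ κ) (hκ : κ ≤ 1 / 16)
    (hG : ∀ r, ∑ i ∈ I.filter (fun i => ρ i = r), g i ≤ κ)
    (hη : 0 ≤ η) (hY : 0 ≤ Y)
    (hR : ∀ T ⊆ I, (∀ r, (T.filter (fun i => ρ i = r)).card ≤ 2 * r + 3) →
      |((A.filter (fun a => ∀ i ∈ T, E i a)).card : ℝ) - Y * ∏ i ∈ T, g i| ≤
        η * (Y * ∏ i ∈ T, g i)) :
    |((A.filter (fun a => ∀ i ∈ I, ¬ E i a)).card : ℝ) - Y * ∏ i ∈ I, (1 - g i)| ≤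
      (Real.exp (3 * κ * R) * η + 4 * κ ^ 3) * (Y * ∏ i ∈ I, (1 - g i)) := by
  have he2 : Real.exp (2 * κ) ≤ 3 / 2 := by
    have h1 : 1 - 2 * κ ≤ Real.exp (-(2 * κ)) := by
      linarith [Real.add_one_le_exp (-(2 * κ))]
    rw [Real.exp_neg] at h1
    have h2 : (0 : ℝ) < Real.exp (2 * κ) := Real.exp_pos _
    have h3 : (1 - 2 * κ) * Real.exp (2 * κ) ≤ 1 := by
      calc (1 - 2 * κ) * Real.exp (2 * κ) ≤ (Real.exp (2 * κ))⁻¹ * Real.exp (2 * κ) :=
            mul_le_mul_of_nonneg_right h1 h2.le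
        _ = 1 := inv_mul_cancel₀ h2.ne'
    nlinarith
  have he3 : Real.exp (3 * κ) ≤ 2 := by
    have h1 : 1 - 3 * κ ≤ Real.exp (-(3 * κ)) := by
      linarith [Real.add_one_le_exp (-(3 * κ))]
    rw [Real.exp_neg] at h1
    have h2 : (0 : ℝ) < Real.exp (3 * κ) := Real.exp_pos _
    have h3 : (1 - 3 * κ) * Real.exp (3 * κ) ≤ 1 := by
      calc (1 - 3 * κ) * Real.exp (3 * κ) ≤ (Real.exp (3 * κ))⁻¹ * Real.exp (3 * κ) :=
            mul_le_mul_of_nonneg_right h1 h2.le
        _ = 1 := inv_mul_cancel₀ h2.ne'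
    nlinarith
  have hprodV : ∀ r, 0 ≤ ∏ i ∈ I.filter (fun i => r ≤ ρ i), (1 - g i) := fun r =>
    Finset.prod_nonneg fun i hi => by
      have := hg1 i (Finset.mem_filter.1 hi).1
      linarith
  have key : ∀ d r, r + d = R → ∀ T ⊆ I, (∀ i ∈ T, ρ i < r) →
      (∀ s, (T.filter (fun i => ρ i = s)).card ≤ 2 * s + 3) →
      |((cnt A I E ρ r T).card : ℝ) -
          Y * (∏ i ∈ T, g i) * ∏ i ∈ I.filter (fun i => r ≤ ρ i), (1 - g i)| ≤
        (Real.exp (3 * κ * d) * η + 4 * κ ^ (2 * r + 3)) *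
          (Y * (∏ i ∈ T, g i) * ∏ i ∈ I.filter (fun i => r ≤ ρ i), (1 - g i)) := by
    intro d
    induction d with
    | zero =>
      intro r hr T hT hTr hTc
      have hrR : r = R := by omega
      have h1 : I.filter (fun i => r ≤ ρ i) = ∅ := by
        rw [Finset.filter_eq_empty_iff]
        intro i hi
        have := hρ i hi
        omega
      have h2 : cnt A I E ρ r T = A.filter (fun a => ∀ i ∈ T, E i a) := by
        ext a
        simp only [cnt, Finset.mem_filter]
        constructor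
        · rintro ⟨h, h', -⟩
          exact ⟨h, h'⟩
        · rintro ⟨h, h'⟩
          refine ⟨h, h', fun j hj hjr => ?_⟩
          have := hρ j hj
          omega
      rw [h1, h2, Finset.prod_empty, mul_one]
      refine (hR T hT hTc).trans ?_
      have h3 : 0 ≤ Y * ∏ i ∈ T, g i :=
        mul_nonneg hY (Finset.prod_nonneg fun i hi => hg0 i (hT hi))
      refine mul_le_mul_of_nonneg_right ?_ h3
      have h4 : 0 ≤ 4 * κ ^ (2 * r + 3) := by positivity
      simp only [Nat.cast_zero, mul_zero, Real.exp_zero, one_mul]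
      linarith
    | succ d ih =>
      intro r hr T hT hTr hTc
      have h1 := step A I E ρ g κ (Real.exp (3 * κ * d) * η + 4 * κ ^ (2 * (r + 1) + 3)) Y hg0 hg1
        hκ0 hG (by positivity) hY r (ih (r + 1) (by omega)) T hT hTr hTc
      refine h1.trans ?_
      have h3 : 0 ≤ Y * (∏ i ∈ T, g i) * ∏ i ∈ I.filter (fun i => r ≤ ρ i), (1 - g i) :=
        mul_nonneg (mul_nonneg hY (Finset.prod_nonneg fun i hi => hg0 i (hT hi))) (hprodV r)
      refine mul_le_mul_of_nonneg_right ?_ h3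
      have e1 : Real.exp (3 * κ * ((d + 1 : ℕ) : ℝ)) = Real.exp (3 * κ) * Real.exp (3 * κ * d) := by
        rw [← Real.exp_add]; congr 1; push_cast; ring
      rw [e1]
      have hk3 : 0 ≤ κ ^ (2 * r + 3) := by positivity
      have e2 : κ ^ (2 * (r + 1) + 3) = κ ^ 2 * κ ^ (2 * r + 3) := by
        rw [← pow_add]; congr 1; ring
      rw [e2]
      have hk2 : κ ^ 2 ≤ 1 / 256 := by nlinarith
      have h6 : Real.exp (3 * κ) * κ ^ 2 ≤ 2 * (1 / 256) :=
        mul_le_mul he3 hk2 (by positivity) (by norm_num)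
      have h7 : 4 * (Real.exp (3 * κ) * κ ^ 2) + 2 * Real.exp (2 * κ) ≤ 4 := by linarith
      calc Real.exp (3 * κ) * (Real.exp (3 * κ * d) * η + 4 * (κ ^ 2 * κ ^ (2 * r + 3))) +
            2 * Real.exp (2 * κ) * κ ^ (2 * r + 3)
          = Real.exp (3 * κ) * Real.exp (3 * κ * d) * η +
            (4 * (Real.exp (3 * κ) * κ ^ 2) + 2 * Real.exp (2 * κ)) * κ ^ (2 * r + 3) := by ring
        _ ≤ Real.exp (3 * κ) * Real.exp (3 * κ * d) * η + 4 * κ ^ (2 * r + 3) := by
            have := mul_le_mul_of_nonneg_right h7 hk3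
            linarith
  have h0 := key R 0 (by omega) ∅ (Finset.empty_subset _) (by simp) (by simp)
  have h1 : I.filter (fun i => 0 ≤ ρ i) = I := by
    rw [Finset.filter_eq_self]
    intro i _
    exact Nat.zero_le _
  have h2 : cnt A I E ρ 0 ∅ = A.filter (fun a => ∀ i ∈ I, ¬ E i a) := by
    ext a
    simp [cnt]
  rw [h1, h2, Finset.prod_empty, mul_one] at h0
  simpa using h0

end Pool.Agent.Helper4.CB
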