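import Pool.Agent.Helper4.CB.Defs

/-!
# CB, piece CNT: points of a coset of a lattice in a box
-/

set_option autoImplicit false

namespace Pool.Agent.Helper4.CB

open Finset

variable {N : ℕ} {G : Type} [AddCommGroup G]

theorem card_bx (e : (Fin N → ℤ) ≃+ G) (τ : G) (X : ℕ) : (bx e τ X).card = X ^ N := by
  unfold bx
  rw [card_map, Fintype.card_piFinset]
  simp

open Classical in
/-- the number of points of the class `q` in the box -/
noncomputable def fib (e : (Fin N → ℤ) ≃+ G) (Λ : AddSubgroup G) (τ : G) (X : ℕ) (q : G ⧸ Λ) : ℕ :=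
  ((bx e τ X).filter (fun g => (QuotientAddGroup.mk g : G ⧸ Λ) = q)).card

theorem fib_mono (e : (Fin N → ℤ) ≃+ G) (Λ : AddSubgroup G) (ρ X : ℕ)
    (hρ : Rad e Λ ρ) (τ τ' : G) (hτ : τ = τ' + e (fun _ => (ρ : ℤ))) (q q' : G ⧸ Λ) :
    fib e Λ τ X q ≤ fib e Λ τ' (X + 2 * ρ) q' := by
  classical
  obtain ⟨y, rfl⟩ := QuotientAddGroup.mk_surjective q
  obtain ⟨x0, rfl⟩ := QuotientAddGroup.mk_surjective q'
  obtain ⟨l, hl, hb⟩ := hρ (y - x0)
  unfold fib
  refine Finset.card_le_card_of_injOn (fun g => g - (y - x0 - l)) ?_ ?_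
  · intro g hg
    rw [mem_coe, mem_filter] at hg
    rw [mem_coe, mem_filter]
    obtain ⟨hg1, hg2⟩ := hg
    constructor
    · rw [mem_bx] at hg1 ⊢
      intro i
      have h1 := hg1 i
      have h2 := hb i
      have h3 : e.symm (g - (y - x0 - l) - τ') i =
          e.symm (g - τ) i - e.symm (y - x0 - l) i + ρ := by
        have : g - (y - x0 - l) - τ' = (g - τ) - (y - x0 - l) + e (fun _ => (ρ : ℤ)) := by
          rw [hτ]; abel
        rw [this, map_add, map_sub, AddEquiv.symm_apply_apply]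
        simp
      rw [h3]
      rw [abs_le] at h2
      push_cast
      constructor <;> linarith [h1.1, h1.2, h2.1, h2.2]
    · rw [QuotientAddGroup.eq] at hg2 ⊢
      have : -(g - (y - x0 - l)) + x0 = (-g + y) - l := by abel
      rw [this]
      exact Λ.sub_mem hg2 hl
  · intro a _ b _ h
    simpa using h

theorem sum_fib (e : (Fin N → ℤ) ≃+ G) (Λ : AddSubgroup G) [Fintype (G ⧸ Λ)] (τ : G) (X : ℕ) :
    ∑ q : G ⧸ Λ, fib e Λ τ X q = X ^ N := by
  classical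
  rw [← card_bx e τ X]
  unfold fib
  exact (Finset.card_eq_sum_card_fiberwise (f := fun g => (QuotientAddGroup.mk g : G ⧸ Λ))
    (t := Finset.univ) (fun _ _ => by simp)).symm

open Classical in
theorem count_coset_aux (e : (Fin N → ℤ) ≃+ G) (Λ : AddSubgroup G) (hq : Λ.index ≠ 0) (ρ X : ℕ)
    (hρ : Rad e Λ ρ) (τ x0 : G) :
    (2 * ρ ≤ X → (X - 2 * ρ) ^ N ≤ Λ.index * ((bx e τ X).filter (fun g => g - x0 ∈ Λ)).card) ∧
    Λ.index * ((bx e τ X).filter (fun g => g - x0 ∈ Λ)).card ≤ (X + 2 * ρ) ^ N := by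
  have : Λ.FiniteIndex := ⟨hq⟩
  let _ : Fintype (G ⧸ Λ) := AddSubgroup.fintypeQuotientOfFiniteIndex
  have hcard : Fintype.card (G ⧸ Λ) = Λ.index := by
    rw [AddSubgroup.index_eq_card, Nat.card_eq_fintype_card]
  have hF : ((bx e τ X).filter (fun g => g - x0 ∈ Λ)).card =
      fib e Λ τ X (QuotientAddGroup.mk x0) := by
    unfold fib
    congr 1
    apply Finset.filter_congr
    intro g _
    rw [eq_comm, QuotientAddGroup.eq, neg_add_eq_sub]
  rw [hF]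
  constructor
  · intro hX
    have h1 := sum_fib e Λ (τ + e (fun _ => (ρ : ℤ))) (X - 2 * ρ)
    rw [← h1, ← hcard]
    calc ∑ q : G ⧸ Λ, fib e Λ (τ + e (fun _ => (ρ : ℤ))) (X - 2 * ρ) q
        ≤ ∑ _q : G ⧸ Λ, fib e Λ τ X (QuotientAddGroup.mk x0) := by
          apply Finset.sum_le_sum
          intro q _
          have := fib_mono e Λ ρ (X - 2 * ρ) hρ (τ + e (fun _ => (ρ : ℤ))) τ rfl q
            (QuotientAddGroup.mk x0)
          rwa [Nat.sub_add_cancel hX] at this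
      _ = Fintype.card (G ⧸ Λ) * fib e Λ τ X (QuotientAddGroup.mk x0) := by
          rw [Finset.sum_const, Finset.card_univ, smul_eq_mul]
  · have h1 := sum_fib e Λ (τ - e (fun _ => (ρ : ℤ))) (X + 2 * ρ)
    rw [← h1, ← hcard]
    calc Fintype.card (G ⧸ Λ) * fib e Λ τ X (QuotientAddGroup.mk x0)
        = ∑ _q : G ⧸ Λ, fib e Λ τ X (QuotientAddGroup.mk x0) := by
          rw [Finset.sum_const, Finset.card_univ, smul_eq_mul]
      _ ≤ ∑ q : G ⧸ Λ, fib e Λ (τ - e (fun _ => (ρ : ℤ))) (X + 2 * ρ) q := by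
          apply Finset.sum_le_sum
          intro q _
          exact fib_mono e Λ ρ X hρ τ (τ - e (fun _ => (ρ : ℤ))) (by abel)
            (QuotientAddGroup.mk x0) q

open Classical in
/-- **CNT.** The number of points of a coset of `Λ` in a box of side `X`.  Proof: every coset
`y + Λ` is the translate of `x0 + Λ` by a vector of sup norm at most `ρ`; sum over all cosets. -/
theorem count_coset (e : (Fin N → ℤ) ≃+ G) (Λ : AddSubgroup G) (hq : Λ.index ≠ 0) (ρ X : ℕ)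
    (hρ : Rad e Λ ρ) (τ x0 : G) :
    (X - 2 * ρ) ^ N ≤ Λ.index * ((bx e τ X).filter (fun g => g - x0 ∈ Λ)).card ∧
    Λ.index * ((bx e τ X).filter (fun g => g - x0 ∈ Λ)).card ≤ (X + 2 * ρ) ^ N := by
  refine ⟨?_, (count_coset_aux e Λ hq ρ X hρ τ x0).2⟩
  rcases le_or_gt (2 * ρ) X with hX | hX
  · exact (count_coset_aux e Λ hq ρ X hρ τ x0).1 hX
  · rcases Nat.eq_zero_or_pos N with h0 | h0
    · subst h0
      have h1 : Rad e Λ 0 := fun g => by
        obtain ⟨l, hl, _⟩ := hρ g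
        exact ⟨l, hl, fun i => i.elim0⟩
      have h2 := (count_coset_aux e Λ hq 0 X h1 τ x0).1 (by omega)
      simpa using h2
    · rw [Nat.sub_eq_zero_of_le hX.le, zero_pow h0.ne']
      exact Nat.zero_le _

theorem one_add_pow_le {δ : ℝ} (h0 : 0 ≤ δ) (h1 : δ ≤ 1) (N : ℕ) :
    (1 + δ) ^ N ≤ 1 + (2 ^ N - 1) * δ := by
  induction N with
  | zero => simp
  | succ n ih =>
    have h2 : (1 : ℝ) ≤ 2 ^ n := one_le_pow₀ (by norm_num)
    have h3 : δ * δ ≤ δ := by nlinarith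
    calc (1 + δ) ^ (n + 1) = (1 + δ) ^ n * (1 + δ) := pow_succ _ _
      _ ≤ (1 + (2 ^ n - 1) * δ) * (1 + δ) := by
          apply mul_le_mul_of_nonneg_right ih (by linarith)
      _ = 1 + 2 ^ n * δ + (2 ^ n - 1) * (δ * δ) := by ring
      _ ≤ 1 + 2 ^ n * δ + (2 ^ n - 1) * δ := by
          have := mul_le_mul_of_nonneg_left h3 (sub_nonneg.2 h2)
          linarith
      _ = 1 + (2 ^ (n + 1) - 1) * δ := by ring

theorem one_sub_pow_ge {δ : ℝ} (h0 : 0 ≤ δ) (h1 : δ ≤ 1) (N : ℕ) :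
    1 - 2 ^ N * δ ≤ (1 - δ) ^ N := by
  have h2 : 1 + (N : ℝ) * (-δ) ≤ (1 + (-δ)) ^ N := one_add_mul_le_pow (by linarith) N
  have h3 : (N : ℝ) ≤ 2 ^ N := by exact_mod_cast Nat.lt_two_pow_self.le
  have h4 : (N : ℝ) * δ ≤ 2 ^ N * δ := mul_le_mul_of_nonneg_right h3 h0
  have h5 : (1 + (-δ)) ^ N = (1 - δ) ^ N := by rw [← sub_eq_add_neg]
  rw [← h5]
  linarith

open Classical in
theorem count_coset' (e : (Fin N → ℤ) ≃+ G) (Λ : AddSubgroup G) (hq : Λ.index ≠ 0) (ρ X : ℕ)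
    (hρ : Rad e Λ ρ) (hX : 2 * ρ ≤ X) (hX0 : 0 < X) (τ x0 : G) :
    |(((bx e τ X).filter (fun g => g - x0 ∈ Λ)).card : ℝ) - (X : ℝ) ^ N / Λ.index| ≤
      2 ^ N * (2 * ρ / X) * ((X : ℝ) ^ N / Λ.index) := by
  obtain ⟨h1, h2⟩ := count_coset e Λ hq ρ X hρ τ x0
  set c : ℕ := ((bx e τ X).filter (fun g => g - x0 ∈ Λ)).card with hc
  have hi : (0 : ℝ) < Λ.index := by exact_mod_cast Nat.pos_of_ne_zero hq
  have hXr : (0 : ℝ) < X := by exact_mod_cast hX0
  have hXρ : (2 : ℝ) * ρ ≤ X := by exact_mod_cast hX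
  set δ : ℝ := 2 * ρ / X with hδ
  have hδ0 : 0 ≤ δ := by positivity
  have hδ1 : δ ≤ 1 := by rw [hδ, div_le_one hXr]; exact hXρ
  have hδX : δ * X = 2 * ρ := by rw [hδ]; field_simp
  have h1' : ((X : ℝ) - 2 * ρ) ^ N ≤ Λ.index * c := by
    have : (((X - 2 * ρ) ^ N : ℕ) : ℝ) ≤ ((Λ.index * c : ℕ) : ℝ) := by exact_mod_cast h1
    rw [Nat.cast_pow, Nat.cast_sub hX] at this
    push_cast at this
    exact this
  have h2' : (Λ.index * c : ℝ) ≤ ((X : ℝ) + 2 * ρ) ^ N := by exact_mod_cast h2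
  have h3 : ((X : ℝ) - 2 * ρ) ^ N = X ^ N * (1 - δ) ^ N := by
    rw [← mul_pow, ← hδX]; ring
  have h4 : ((X : ℝ) + 2 * ρ) ^ N = X ^ N * (1 + δ) ^ N := by
    rw [← mul_pow, ← hδX]; ring
  have hXN : (0 : ℝ) < (X : ℝ) ^ N := by positivity
  have h5 : (X : ℝ) ^ N * (1 - 2 ^ N * δ) ≤ Λ.index * c := by
    refine le_trans ?_ h1'
    rw [h3]
    exact mul_le_mul_of_nonneg_left (one_sub_pow_ge hδ0 hδ1 N) hXN.le
  have h6 : (Λ.index * c : ℝ) ≤ (X : ℝ) ^ N * (1 + 2 ^ N * δ) := by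
    refine h2'.trans ?_
    rw [h4]
    refine mul_le_mul_of_nonneg_left ?_ hXN.le
    have := one_add_pow_le hδ0 hδ1 N
    linarith
  have h7 : (c : ℝ) - (X : ℝ) ^ N / Λ.index = (Λ.index * c - (X : ℝ) ^ N) / Λ.index := by
    field_simp
  rw [h7, abs_div, abs_of_pos hi, div_le_iff₀ hi]
  have h8 : 2 ^ N * δ * ((X : ℝ) ^ N / Λ.index) * Λ.index = 2 ^ N * δ * (X : ℝ) ^ N := by
    field_simp
  rw [h8, abs_le]
  constructor <;> nlinarith

end Pool.Agent.Helper4.CB
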