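import Pool.Agent.Helper4.CB.Defs

/-!
# CB, piece COV: covering radius of ideals
-/

set_option autoImplicit false

namespace Pool.Agent.Helper4.CB

open Finset

/-- a short nonzero element of an ideal -/
theorem cov_short {r : ℕ} {R : Type} [CommRing R] [IsDomain R] (b : Module.Basis (Fin r) ℤ R)
    (hr : 0 < r) (I : Ideal R) (hI : I ≠ ⊥) (ρ : ℕ)
    (h : (Nat.card (R ⧸ I) : ℝ) ≤ (ρ : ℝ) ^ r) :
    ∃ w ∈ I, w ≠ 0 ∧ ∀ i, |b.repr w i| ≤ ρ := by
  classical
  have : Module.Free ℤ R := Module.Free.of_basis b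
  have : Module.Finite ℤ R := Module.Finite.of_basis b
  have : Finite (R ⧸ I) := Ideal.finiteQuotientOfFreeOfNeBot I hI
  have : Fintype (R ⧸ I) := Fintype.ofFinite _
  have hc : Fintype.card (R ⧸ I) < Fintype.card (Fin r → Fin (ρ + 1)) := by
    rw [Fintype.card_fun, Fintype.card_fin, Fintype.card_fin, ← Nat.card_eq_fintype_card]
    have h1 : Nat.card (R ⧸ I) ≤ ρ ^ r := by exact_mod_cast h
    exact h1.trans_lt (Nat.pow_lt_pow_left (Nat.lt_succ_self ρ) hr.ne')
  obtain ⟨x, y, hxy, he⟩ := Fintype.exists_ne_map_eq_of_card_lt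
    (fun x : Fin r → Fin (ρ + 1) =>
      (Ideal.Quotient.mk I) (b.equivFun.symm (fun i => ((x i : ℕ) : ℤ)))) hc
  rw [Ideal.Quotient.eq, ← map_sub] at he
  refine ⟨_, he, ?_, fun i => ?_⟩
  · intro h0
    rw [LinearEquiv.map_eq_zero_iff] at h0
    apply hxy
    funext i
    have h1 := congrFun h0 i
    rw [Pi.sub_apply, Pi.zero_apply] at h1
    exact Fin.ext (by omega)
  · have h1 : b.repr (b.equivFun.symm ((fun i => ((x i : ℕ) : ℤ)) - fun i => ((y i : ℕ) : ℤ))) i =
        ((x i : ℕ) : ℤ) - ((y i : ℕ) : ℤ) := by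
      rw [← Module.Basis.equivFun_apply, LinearEquiv.apply_symm_apply]
      rfl
    rw [h1, abs_le]
    have h2 := (x i).2
    have h3 := (y i).2
    omega

/-- coordinates of a product with a basis vector -/
theorem cov_mul {r : ℕ} {R : Type} [CommRing R] (b : Module.Basis (Fin r) ℤ R) :
    ∃ C : ℕ, ∀ (x y : R) (A B : ℤ), (∀ i, |b.repr x i| ≤ A) → (∀ i, |b.repr y i| ≤ B) →
      ∀ i, |b.repr (x * y) i| ≤ C * (A * B) := by
  classical
  refine ⟨∑ p : Fin r × Fin r × Fin r, (b.repr (b p.1 * b p.2.1) p.2.2).natAbs, ?_⟩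
  intro x y A B hx hy i
  have h1 : x * y = ∑ j, ∑ k, (b.repr x j * b.repr y k) • (b j * b k) := by
    conv_lhs => rw [← b.sum_repr x, ← b.sum_repr y]
    rw [Finset.sum_mul_sum]
    refine Finset.sum_congr rfl (fun j _ => Finset.sum_congr rfl (fun k _ => ?_))
    rw [smul_mul_smul_comm]
  rw [h1, map_sum, Finsupp.finsetSum_apply]
  have h2 : ∀ j, b.repr (∑ k, (b.repr x j * b.repr y k) • (b j * b k)) i =
      ∑ k, (b.repr x j * b.repr y k) * b.repr (b j * b k) i := by
    intro j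
    rw [map_sum, Finsupp.finsetSum_apply]
    refine Finset.sum_congr rfl (fun k _ => ?_)
    rw [map_smul, Finsupp.smul_apply, smul_eq_mul]
  rw [Finset.sum_congr rfl (fun j _ => h2 j)]
  have hB : ∀ j, 0 ≤ B := fun j => (abs_nonneg _).trans (hy j)
  calc |∑ j, ∑ k, (b.repr x j * b.repr y k) * b.repr (b j * b k) i| ≤
        ∑ j, ∑ k, |(b.repr x j * b.repr y k) * b.repr (b j * b k) i| :=
        (Finset.abs_sum_le_sum_abs _ _).trans
          (Finset.sum_le_sum (fun j _ => Finset.abs_sum_le_sum_abs _ _))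
    _ ≤ ∑ j : Fin r, ∑ k : Fin r, (A * B) * ((b.repr (b j * b k) i).natAbs : ℤ) := by
        refine Finset.sum_le_sum (fun j _ => Finset.sum_le_sum (fun k _ => ?_))
        rw [abs_mul, abs_mul, ← Int.natCast_natAbs (b.repr (b j * b k) i)]
        exact mul_le_mul_of_nonneg_right
          (mul_le_mul (hx j) (hy k) (abs_nonneg _) ((abs_nonneg _).trans (hx j)))
          (Int.natCast_nonneg _)
    _ ≤ (A * B) * ((∑ p : Fin r × Fin r × Fin r,
          (b.repr (b p.1 * b p.2.1) p.2.2).natAbs : ℕ) : ℤ) := by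
        simp_rw [← Finset.mul_sum]
        refine mul_le_mul_of_nonneg_left ?_ (mul_nonneg ((abs_nonneg _).trans (hx i)) (hB i))
        push_cast
        rw [Fintype.sum_prod_type]
        refine Finset.sum_le_sum (fun j _ => ?_)
        rw [Fintype.sum_prod_type]
        refine Finset.sum_le_sum (fun k _ => ?_)
        exact Finset.single_le_sum (f := fun i => |b.repr (b j * b k) i|)
          (fun _ _ => abs_nonneg _) (Finset.mem_univ i)
    _ = _ := mul_comm _ _

/-- an element of an ideal near a given element of the ring -/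
theorem cov_ring {r : ℕ} {R : Type} [CommRing R] [IsDomain R] (b : Module.Basis (Fin r) ℤ R)
    (hr : 0 < r) : ∃ C : ℕ, ∀ I : Ideal R, I ≠ ⊥ → ∀ ρ : ℕ,
      (Nat.card (R ⧸ I) : ℝ) ≤ (ρ : ℝ) ^ r → ∀ g : R, ∃ l ∈ I, ∀ i,
        |b.repr (g - l) i| ≤ (C * ρ : ℕ) := by
  classical
  obtain ⟨C, hC⟩ := cov_mul b
  refine ⟨C, fun I hI ρ hρ g => ?_⟩
  obtain ⟨w, hwI, hw0, hw⟩ := cov_short b hr I hI ρ hρ
  have : Module.Free ℤ R := Module.Free.of_basis b
  have : Module.Finite ℤ R := Module.Finite.of_basis b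
  have : Finite (R ⧸ Ideal.span {w}) :=
    Ideal.finiteQuotientOfFreeOfNeBot _ (fun h => hw0 (Ideal.span_singleton_eq_bot.1 h))
  obtain ⟨n, hn⟩ : ∃ n : ℕ, n = Nat.card (R ⧸ Ideal.span {w}) := ⟨_, rfl⟩
  have hn0 : 0 < n := by
    rw [hn]
    exact Nat.card_pos
  have h1 : (n : R) * g ∈ Ideal.span {w} := by
    rw [← Ideal.Quotient.eq_zero_iff_mem, map_mul, map_natCast, ← nsmul_eq_mul, hn]
    exact card_nsmul_eq_zero'
  obtain ⟨h, hh⟩ := Ideal.mem_span_singleton'.1 h1
  obtain ⟨t, ht⟩ : ∃ t : R, t = b.equivFun.symm (fun i => b.repr h i % (n : ℤ)) := ⟨_, rfl⟩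
  obtain ⟨q, hq⟩ : ∃ q : R, q = b.equivFun.symm (fun i => b.repr h i / (n : ℤ)) := ⟨_, rfl⟩
  have hht : h = t + (n : R) * q := by
    apply b.equivFun.injective
    have e2 : (n : R) * q = (n : ℤ) • q := by
      rw [zsmul_eq_mul, Int.cast_natCast]
    rw [map_add, e2, map_smul, ht, hq, LinearEquiv.apply_symm_apply,
      LinearEquiv.apply_symm_apply]
    funext i
    rw [Module.Basis.equivFun_apply, Pi.add_apply, Pi.smul_apply, smul_eq_mul]
    exact (Int.emod_add_mul_ediv _ _).symm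
  refine ⟨q * w, I.mul_mem_left _ hwI, fun i => ?_⟩
  have h2 : (n : ℤ) • (g - q * w) = t * w := by
    rw [zsmul_eq_mul, Int.cast_natCast, mul_sub, ← hh, hht]
    ring
  have h3 : ∀ i, |b.repr t i| ≤ (n : ℤ) := by
    intro i
    have h4 : b.repr t i = b.repr h i % (n : ℤ) := by
      rw [← Module.Basis.equivFun_apply, ht, LinearEquiv.apply_symm_apply]
    rw [h4, abs_of_nonneg (Int.emod_nonneg _ (by omega))]
    exact (Int.emod_lt_of_pos _ (by omega)).le
  have h4 := hC t w n ρ h3 hw i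
  rw [← h2, map_smul, Finsupp.smul_apply, smul_eq_mul, abs_mul, Nat.abs_cast] at h4
  have h5 : (n : ℤ) * |b.repr (g - q * w) i| ≤ (n : ℤ) * (C * ρ : ℕ) := by
    push_cast
    linarith
  exact le_of_mul_le_mul_left h5 (by omega)

/-- **COV.** Proof: by the pigeonhole principle an ideal `I` of index `q` has a nonzero element `w`
with coordinates `≤ q ^ (1 / r) + 1`; the multiples `w * b j` generate a subgroup of finite index
with generators of size `≤ C q ^ (1 / r)`; round the (rational) coordinates; then lift along `π`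
(a section of `π`). -/
theorem cov {N r : ℕ} {R : Type} [CommRing R] [IsDomain R] (b : Module.Basis (Fin r) ℤ R)
    (hr : 0 < r) {G : Type} [AddCommGroup G] (e : (Fin N → ℤ) ≃+ G) (π : G →+ R)
    (hπ : Function.Surjective π) :
    ∃ C : ℕ, ∀ I : Ideal R, I ≠ ⊥ → ∀ ρ : ℕ, (Nat.card (R ⧸ I) : ℝ) ≤ (ρ : ℝ) ^ r →
      Rad e (I.toAddSubgroup.comap π) (C * ρ) := by
  classical
  obtain ⟨C, hC⟩ := cov_ring b hr
  choose s hs using fun i : Fin r => hπ (b i)
  refine ⟨C * ∑ p : Fin r × Fin N, (e.symm (s p.1) p.2).natAbs, fun I hI ρ hρ g => ?_⟩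
  obtain ⟨l0, hl0, hl⟩ := hC I hI ρ hρ (π g)
  refine ⟨g - ∑ i, (b.repr (π g - l0) i) • s i, ?_, fun k => ?_⟩
  · rw [AddSubgroup.mem_comap, Submodule.mem_toAddSubgroup, map_sub, map_sum]
    have h1 : ∑ i, π ((b.repr (π g - l0) i) • s i) = π g - l0 := by
      conv_rhs => rw [← b.sum_repr (π g - l0)]
      refine Finset.sum_congr rfl (fun i _ => ?_)
      rw [map_zsmul, hs]
    rw [h1, sub_sub_cancel]
    exact hl0
  · rw [sub_sub_cancel, map_sum, Finset.sum_apply]
    calc |∑ i, e.symm (b.repr (π g - l0) i • s i) k| ≤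
          ∑ i, |e.symm (b.repr (π g - l0) i • s i) k| := Finset.abs_sum_le_sum_abs _ _
      _ ≤ ∑ i, ((C * ρ : ℕ) : ℤ) * ((e.symm (s i) k).natAbs : ℤ) := by
          refine Finset.sum_le_sum (fun i _ => ?_)
          rw [map_zsmul, Pi.smul_apply, smul_eq_mul, abs_mul,
            ← Int.natCast_natAbs (e.symm (s i) k)]
          exact mul_le_mul_of_nonneg_right (hl i) (Int.natCast_nonneg _)
      _ ≤ ((C * ρ : ℕ) : ℤ) * ((∑ p : Fin r × Fin N, (e.symm (s p.1) p.2).natAbs : ℕ) : ℤ) := by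
          rw [← Finset.mul_sum]
          refine mul_le_mul_of_nonneg_left ?_ (Int.natCast_nonneg _)
          push_cast
          rw [Fintype.sum_prod_type]
          refine Finset.sum_le_sum (fun i _ => ?_)
          exact Finset.single_le_sum (f := fun k => |e.symm (s i) k|)
            (fun _ _ => abs_nonneg _) (Finset.mem_univ k)
      _ = _ := by
          push_cast
          ring

end Pool.Agent.Helper4.CB
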