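import Pool.Agent.Helper4.CB.SYS
import Pool.Agent.Helper4.CB.CNT
import Pool.Agent.Helper47.CB.Evt

/-!
# CB, piece EVT: points of a coset in a box which lie in all `E q`, `q ∈ T`
-/

set_option autoImplicit false

namespace Pool.Agent.Helper4.CB

open Finset

variable {N : ℕ} {G : Type} [AddCommGroup G]

/-- **RADINF.** `D = ∏ nm q`: `D l ∈ Λ ⊓ T.inf Γ` for `l ∈ Λ`; divide coordinates by `D`. -/
theorem rad_inf (S : Sys N G) {Λ : AddSubgroup G} {ρ : ℕ} (h : Rad S.e Λ ρ) (T : Finset S.Q) :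
    Rad S.e (Λ ⊓ T.inf S.Γ) ((∏ q ∈ T, S.nm q) * (ρ + 1)) := by
  classical
  have hP : 0 < ∏ q ∈ T, S.nm q := prod_pos fun q _ => by have := S.two_le q; omega
  have h1 := Helper47.CB.rad_of_smul S.e (Λ := Λ ⊓ T.inf S.Γ) h hP (fun g hg => ?_)
  · rwa [mul_comm] at h1
  · refine AddSubgroup.mem_inf.mpr ⟨Λ.nsmul_mem hg _, ?_⟩
    rw [Finset.inf_eq_iInf]
    simp only [AddSubgroup.mem_iInf]
    intro q hq
    obtain ⟨c, hc⟩ := Finset.dvd_prod_of_mem S.nm hq
    rw [hc, mul_comm, mul_smul]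
    exact (S.Γ q).nsmul_mem (S.smul_mem q g) _

/-- the same for a subgroup of finite index -/
theorem rad_inf_index {e : (Fin N → ℤ) ≃+ G} {Λ Γ0 : AddSubgroup G} {ρ : ℕ} (h : Rad e Λ ρ)
    (h0 : Γ0.index ≠ 0) : Rad e (Γ0 ⊓ Λ) (Γ0.index * (ρ + 1)) := by
  have h1 := Helper47.CB.rad_of_smul e (Λ := Γ0 ⊓ Λ) h (Nat.pos_of_ne_zero h0) (fun g hg => ?_)
  · rwa [mul_comm] at h1
  · exact AddSubgroup.mem_inf.mpr ⟨AddSubgroup.nsmul_index_mem Γ0 g, Λ.nsmul_mem hg _⟩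

/-- index of an intersection of comaximal subgroups -/
theorem index_inf {A B : AddSubgroup G} (h : A ⊔ B = ⊤) (hA : A.index ≠ 0) (hB : B.index ≠ 0) :
    (A ⊓ B).index = A.index * B.index := by
  have h1 := Helper47.CB.index_jn (T := ({()} : Finset Unit)) (M := fun _ => B) (Λ0 := A) ?_
  · have h2 : Helper47.CB.jn ({()} : Finset Unit) (fun _ => B) A = A ⊓ B := by
      ext g
      rw [Helper47.CB.mem_jn, AddSubgroup.mem_inf]
      simp
    rw [h2] at h1
    rw [h1]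
    simp
  · intro x y
    have h3 : x - y () ∈ A ⊔ B := by rw [h]; trivial
    obtain ⟨a, ha, b, hb, hab⟩ := AddSubgroup.mem_sup.mp h3
    refine ⟨y () + b, ?_, fun i _ => ?_⟩
    · have h4 : y () + b - x = -a := by
        have : x = a + b + y () := by rw [hab]; abel
        rw [this]
        abel
      rw [h4]
      exact A.neg_mem ha
    · have : y () + b - y i = b := by abel
      rw [this]
      exact hb

/-- `A + (B ∩ C) = G` and `B + C = G` give `(A ∩ B) + C = G` -/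
theorem sup_of_sup {A B C : AddSubgroup G} (h : A ⊔ (B ⊓ C) = ⊤) (h' : B ⊔ C = ⊤) :
    (A ⊓ B) ⊔ C = ⊤ := by
  rw [eq_top_iff]
  intro g _
  have h1 : g ∈ B ⊔ C := by rw [h']; trivial
  obtain ⟨b, hb, c, hc, rfl⟩ := AddSubgroup.mem_sup.mp h1
  have h2 : b ∈ A ⊔ (B ⊓ C) := by rw [h]; trivial
  obtain ⟨a, ha, d, hd, rfl⟩ := AddSubgroup.mem_sup.mp h2
  have h3 := AddSubgroup.mem_inf.mp hd
  have h4 : a ∈ B := by
    have := B.sub_mem hb h3.1
    rwa [add_sub_cancel_right] at this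
  rw [add_assoc]
  exact AddSubgroup.add_mem _ (AddSubgroup.mem_sup_left (AddSubgroup.mem_inf.mpr ⟨ha, h4⟩))
    (AddSubgroup.mem_sup_right (C.add_mem h3.2 hc))

/-- the Chinese remainder theorem in a sieve system -/
theorem crt_sys (S : Sys N G) (T : Finset S.Q) (y : S.Q → G) :
    ∃ g : G, ∀ q ∈ T, g - y q ∈ S.Γ q := by
  classical
  induction T using Finset.induction_on with
  | empty => exact ⟨0, by simp⟩
  | insert q T hq ih =>
    obtain ⟨g, hg⟩ := ih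
    have h1 : y q - g ∈ S.Γ q ⊔ T.inf S.Γ := by rw [S.com T q hq]; trivial
    obtain ⟨a, ha, b, hb, hab⟩ := AddSubgroup.mem_sup.mp h1
    refine ⟨g + b, fun q' hq' => ?_⟩
    rw [mem_insert] at hq'
    rcases hq' with rfl | hq'
    · have : g + b - y q' = -a := by
        have : y q' = a + b + g := by rw [hab]; abel
        rw [this]
        abel
      rw [this]
      exact (S.Γ q').neg_mem ha
    · have h2 : b ∈ S.Γ q' := (Finset.inf_le hq' : T.inf S.Γ ≤ S.Γ q') hb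
      have := (S.Γ q').add_mem (hg q' hq') h2
      convert this using 1
      abel

open Classical in
/-- **EVT.** Induction on `T`: split `E q` in classes modulo `Γ q`, the part of a class in a coset
of `Λ` is a coset of `Λ ⊓ Γ q`. -/
theorem count_events (S : Sys N G) (T : Finset S.Q) (Λ : AddSubgroup G) (hΛ : Λ.index ≠ 0)
    (hcop : Λ ⊔ T.inf S.Γ = ⊤) {ρ X : ℕ} (hρ : Rad S.e (Λ ⊓ T.inf S.Γ) ρ) (hX : 2 * ρ ≤ X)
    (hX0 : 0 < X) (τ x0 : G) :
    |(((bx S.e τ X).filter (fun g => g - x0 ∈ Λ ∧ ∀ q ∈ T, g ∈ S.E q)).card : ℝ) -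
        (X : ℝ) ^ N / Λ.index * ∏ q ∈ T, S.g q| ≤
      2 ^ N * (2 * ρ / X) * ((X : ℝ) ^ N / Λ.index * ∏ q ∈ T, S.g q) := by
  have hjn : Helper47.CB.jn T S.Γ Λ = Λ ⊓ T.inf S.Γ := by
    unfold Helper47.CB.jn
    rw [Finset.inf_eq_iInf]
  have hgd : ∀ q ∈ T, Helper47.CB.gd (S.Γ q) (fun g => g ∈ S.E q) = S.g q := by
    intro q _
    unfold Helper47.CB.gd Sys.g
    have h1 : Nat.card {c : G ⧸ S.Γ q // ∃ g : G, (g : G ⧸ S.Γ q) = c ∧ g ∈ S.E q} =
        ((QuotientAddGroup.mk : G → G ⧸ S.Γ q) '' (S.E q)).ncard := by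
      rw [← Nat.card_coe_set_eq]
      refine Nat.card_congr (Equiv.subtypeEquivRight fun c => ?_)
      rw [Set.mem_image]
      exact ⟨fun ⟨g, h1, h2⟩ => ⟨g, h2, h1⟩, fun ⟨g, h1, h2⟩ => ⟨g, h2, h1⟩⟩
    rw [h1, S.index q]
    push_cast
    rfl
  have hcrt : ∀ (x : G) (y : S.Q → G), ∃ g : G, g - x ∈ Λ ∧ ∀ i ∈ T, g - y i ∈ S.Γ i := by
    intro x y
    obtain ⟨g, hg⟩ := crt_sys S T y
    have h1 : x - g ∈ Λ ⊔ T.inf S.Γ := by rw [hcop]; trivial
    obtain ⟨a, ha, b, hb, hab⟩ := AddSubgroup.mem_sup.mp h1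
    refine ⟨g + b, ?_, fun q hq => ?_⟩
    · have : g + b - x = -a := by
        have : x = a + b + g := by rw [hab]; abel
        rw [this]
        abel
      rw [this]
      exact Λ.neg_mem ha
    · have h2 : b ∈ S.Γ q := (Finset.inf_le hq : T.inf S.Γ ≤ S.Γ q) hb
      have := (S.Γ q).add_mem (hg q hq) h2
      convert this using 1
      abel
  have h := Helper47.CB.evt (T := T) (M := S.Γ) (Λ0 := Λ) S.e hΛ
    (fun q _ => by rw [S.index q]; have := S.two_le q; positivity) hcrt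
    (fun q g => g ∈ S.E q) (fun q _ g m hm hg => S.add_mem q g m hg hm) ρ X
    (by rw [hjn]; exact hρ) hX hX0 τ x0
  rw [prod_congr rfl hgd] at h
  exact h

end Pool.Agent.Helper4.CB
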