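import Pool.Agent.Helper4.CB.SIFT

/-!
# CB: the data of one factor
-/

set_option autoImplicit false

namespace Pool.Agent.Helper4.CB

open Finset

/-- The data of one factor: in the application `P` is the set of places of `M = K(θ)` not dividing
`m`, `Λ p` the set of all `(u, v)` with `u - m θ v ∈ p`, `un p` the place of `K` under `p`. -/
structure Fac {G : Type} [AddCommGroup G] (n : ℕ) (S : Sys (2 * n) G) where
  P : Type
  pn : P → ℕ
  un : P → S.Q
  Λ : P → AddSubgroup G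
  d : ℕ
  one_le : 1 ≤ d
  le_two : d ≤ 2
  index : ∀ p, (Λ p).index = pn p
  le : ∀ p, S.Γ (un p) ≤ Λ p
  nm_le : ∀ p, S.nm (un p) ≤ pn p
  fib_fin : ∀ q, {p | un p = q}.Finite
  fib : ∀ q, {p | un p = q}.ncard ≤ 2
  C : ℕ
  rad : ∀ (p : P) (ρ : ℕ), pn p ≤ ρ ^ (d * n) → Rad S.e (Λ p) (C * ρ)

end Pool.Agent.Helper4.CB
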