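import Pool.Agent.Helper4.CB.STM
import Pool.Agent.Helper16.CB.Defs
import Pool.Agent.Helper15.PotDense

/-!
# CB, general form: unramified factors of any degree are allowed
-/

set_option autoImplicit false

namespace Pool.Agent.Helper4.CB

open NumberField Polynomial AlgebraicGeometry CategoryTheory Pool.Agent.Helper15
open Pool.Agent.Helper16.CB (LC)

/-- **PG**: like `PointStmt`, but irreducible factors `P` of any degree are allowed if the symbol
`(a, b)` is unramified at `P`. -/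
def PointG (K : Type) [Field K] [NumberField K] (dm : ℕ) : Prop :=
  ∀ D : ℕ, ∃ (L : Type) (_ : Field L) (_ : Algebra K L), FiniteDimensional K L ∧
    ∀ a b : K[X], a ≠ 0 → b.Monic → Even b.natDegree → (a * b).natDegree ≤ D →
    (∀ P : K[X], Irreducible P → P ∣ a * b → P.natDegree ≤ dm ∨ LC (Ideal.span {P}) a b) →
    ∀ Z : Finset K, ∃ s : K, s ∉ Z ∧ a.eval s ≠ 0 ∧ b.eval s ≠ 0 ∧
      ∃ x y z : L, (x ≠ 0 ∨ y ≠ 0 ∨ z ≠ 0) ∧
        x ^ 2 = algebraMap K L (a.eval s) * y ^ 2 + algebraMap K L (b.eval s) * z ^ 2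

/-- the unit part of the tame symbol of `(a, b)` at `F i` is a square modulo `F i` up to a
constant: `a = α ∏ F j ^ e j`, `b = β ∏ F j ^ f j`. -/
def Free {R : Type} [CommRing R] {k : ℕ} (F : Fin k → R[X]) (α β : R) (e f : Fin k → ℕ)
    (i : Fin k) : Prop :=
  ∃ (c : R) (h : R[X]), c ≠ 0 ∧ F i ∣ C (c ^ 2) *
    ((-1) ^ (e i * f i) * (C α * ∏ j ∈ Finset.univ.erase i, F j ^ e j) ^ f i *
      (C β * ∏ j ∈ Finset.univ.erase i, F j ^ f j) ^ e i) - h ^ 2

/- **ENDG** is the theorem `finalG` in `Pool/Agent/Helper92/CB/FinalG.lean`. -/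

end Pool.Agent.Helper4.CB
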