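import Pool.Agent.Helper4.CB.Desc
import Pool.Agent.Helper69.CB.TriDefs
import Pool.Agent.Helper10.TRI.Defs

/-!
# CB, T-TRI: from the field of definition of the geometric factors to the ground field
-/

set_option autoImplicit false

namespace Pool.Agent.Helper4.CB

open NumberField MvPolynomial Pool.Agent.Helper65.CB Pool.Agent.Helper69.CB

/-- harmless points over a finite extension, family form -/
theorem harmless_geom (K : Type) [Field K] [NumberField K] (dm : ℕ) {n r : ℕ}
    (htri : ∀ (M : Type) [Field M] [NumberField M] (a b : Fin r → MvPolynomial (Fin n) M),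
      (∀ i, a i ≠ 0) → (∀ i, b i ≠ 0) →
      (∀ i, ∀ P : MvPolynomial (Fin n) M, Irreducible P → P ∣ a i * b i →
        TriDeg dm P ∨ LCU P (a i) (b i)) →
      ∃ J, ∀ f : MvPolynomial (Fin n) M, f ≠ 0 →
        ∃ φ : MvPolynomial (Fin n) M →ₐ[M] M, φ f ≠ 0 ∧ ∀ i, HS M J (φ (a i)) (φ (b i)))
    (a b : Fin r → MvPolynomial (Fin n) K) (ha : ∀ i, a i ≠ 0) (hb : ∀ i, b i ≠ 0)
    (h : ∀ i, ∀ P : MvPolynomial (Fin n) (AlgebraicClosure K), Irreducible P →
      P ∣ map (algebraMap K (AlgebraicClosure K)) (a i * b i) →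
      (∀ j : Fin n, (∀ k < j, P.degreeOf k = 0) → P.degreeOf j ≤ dm) ∨
      LCU P (map (algebraMap K (AlgebraicClosure K)) (a i))
        (map (algebraMap K (AlgebraicClosure K)) (b i))) :
    ∃ (M : Type) (_ : Field M) (_ : NumberField M) (_ : Algebra K M),
      FiniteDimensional K M ∧ ∃ J, ∀ f : MvPolynomial (Fin n) K, f ≠ 0 →
        ∃ φ : MvPolynomial (Fin n) K →ₐ[K] M, φ f ≠ 0 ∧ ∀ i, HS M J (φ (a i)) (φ (b i)) := by
  obtain ⟨M, hM, hMP⟩ := descend
    (fun d => ∀ j : Fin n, (∀ k < j, d k = 0) → d j ≤ dm) a b ha hb h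
  have hnf : NumberField M := NumberField.of_module_finite K M
  have hinj : Function.Injective (map (algebraMap K M) : MvPolynomial (Fin n) K → _) :=
    map_injective _ (algebraMap K M).injective
  have hne : ∀ f : MvPolynomial (Fin n) K, f ≠ 0 → map (algebraMap K M) f ≠ 0 := fun f hf => by
    rwa [Ne, map_eq_zero_iff _ hinj]
  obtain ⟨J, hJ⟩ := htri M (fun i => map (algebraMap K M) (a i))
    (fun i => map (algebraMap K M) (b i)) (fun i => hne _ (ha i)) (fun i => hne _ (hb i))
    (fun i P hP hd => hMP i P hP (by rwa [map_mul]))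
  refine ⟨M, inferInstance, hnf, inferInstance, hM, J, fun f hf => ?_⟩
  obtain ⟨φ, hφ, hφi⟩ := hJ _ (hne f hf)
  exact ⟨(φ.restrictScalars K).comp (mapAlgHom (Algebra.ofId K M)), hφ, hφi⟩

end Pool.Agent.Helper4.CB
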