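import Pool.Agent.Helper4.CB.Defs
import Pool.Agent.Helper35.CB.Iso

/-!
# CB, piece ISO: the form `⟨a, b, c, abc⟩`
-/

set_option autoImplicit false

namespace Pool.Agent.Helper4.CB

/-- **ISO.** The form `⟨a, b, c, abc⟩` is isotropic only if `⟨a, b, c⟩` is. -/
theorem isotropic {F : Type} [Field F] {a b c w t x y z : F} (ha : a ≠ 0) (hb : b ≠ 0)
    (hc : c ≠ 0) (ht : t ^ 2 = -w) (h0 : x ≠ 0 ∨ y ≠ 0 ∨ z ≠ 0)
    (h : a * x ^ 2 + b * y ^ 2 + c * z ^ 2 = a * b * c * w) :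
    ∃ x' y' z' : F, (x' ≠ 0 ∨ y' ≠ 0 ∨ z' ≠ 0) ∧
      a * x' ^ 2 + b * y' ^ 2 + c * z' ^ 2 = 0 := by
  refine Pool.Agent.Helper35.CB.iso_of_norm (x := x) (y := y) (z := z) (t := t) ha ?_ ?_
  · linear_combination h + a * b * c * ht
  · rcases h0 with h0 | h0 | h0
    · exact Or.inl h0
    · exact Or.inr (Or.inl h0)
    · exact Or.inr (Or.inr (Or.inl h0))

end Pool.Agent.Helper4.CB
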