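import Pool.Agent.Helper4.CB.Defs
import Pool.Agent.Helper35.CB.Legendre

/-!
# CB, piece LG: Legendre's theorem with a bounded cofactor
-/

set_option autoImplicit false

namespace Pool.Agent.Helper4.CB

open NumberField

/-- the norm of an integer of the base field, in the extension -/
theorem abs_norm_algebraMap (K L : Type) [Field K] [NumberField K] [Field L] [NumberField L]
    [Algebra K L] (c : 𝓞 K) :
    |((Algebra.norm ℤ (algebraMap (𝓞 K) (𝓞 L) c) : ℤ) : ℝ)| =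
      |((Algebra.norm ℤ c : ℤ) : ℝ)| ^ Module.finrank K L := by
  have h1 : ((Algebra.norm ℤ (algebraMap (𝓞 K) (𝓞 L) c) : ℤ) : ℚ) =
      ((Algebra.norm ℤ c : ℤ) : ℚ) ^ Module.finrank K L := by
    rw [Algebra.coe_norm_int, Algebra.coe_norm_int]
    have h2 : ((algebraMap (𝓞 K) (𝓞 L) c : 𝓞 L) : L) = algebraMap K L (c : K) := rfl
    rw [h2, ← Algebra.norm_norm (R := ℚ) (S := K) (A := L), Algebra.norm_algebraMap, map_pow]
  have h3 : ((Algebra.norm ℤ (algebraMap (𝓞 K) (𝓞 L) c) : ℤ) : ℝ) =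
      ((Algebra.norm ℤ c : ℤ) : ℝ) ^ Module.finrank K L := by exact_mod_cast h1
  rw [h3, abs_pow]

/-- the power `[L : ℚ]` of `rn c` -/
theorem rn_pow (K L : Type) [Field K] [NumberField K] [Field L] [NumberField L]
    [Algebra K L] (c : 𝓞 K) :
    rn c ^ Module.finrank ℚ L = |((Algebra.norm ℤ (algebraMap (𝓞 K) (𝓞 L) c) : ℤ) : ℝ)| := by
  have hn : 0 < Module.finrank ℚ K := Module.finrank_pos
  have h1 : rn c ^ Module.finrank ℚ K = |((Algebra.norm ℤ c : ℤ) : ℝ)| := by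
    unfold rn
    rw [← Real.rpow_natCast, ← Real.rpow_mul (abs_nonneg _)]
    rw [one_div, inv_mul_cancel₀ (by exact_mod_cast hn.ne'), Real.rpow_one]
  rw [abs_norm_algebraMap, ← Module.finrank_mul_finrank ℚ K L, pow_mul, h1]

/-- **LG.** Pigeonhole in `(𝓞 L)^3`, boxes of sides `⌊√(C₂ C₃)⌋ + 1` etc., `Cᵢ = rn cᵢ`; linear
conditions `c₂ y = r₁ z` mod `c₁`, `c₃ z = r₂ x` mod `c₂`, `c₁ x = r₃ y` mod `c₃`.  The quotient
`w` is bounded at all embeddings (`NumberField.Embeddings.finite_of_norm_le`). -/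
theorem legendre (K L : Type) [Field K] [NumberField K] [Field L] [NumberField L] [Algebra K L]
    (B : ℝ) : ∃ W : Finset (𝓞 L), ∀ c1 c2 c3 : 𝓞 K, c1 ≠ 0 → c2 ≠ 0 → c3 ≠ 0 →
      IsCoprime c1 c2 → IsCoprime c2 c3 → IsCoprime c3 c1 →
      (∃ r : 𝓞 L, algebraMap (𝓞 K) (𝓞 L) c1 ∣ r ^ 2 - algebraMap (𝓞 K) (𝓞 L) (-(c2 * c3))) →
      (∃ r : 𝓞 L, algebraMap (𝓞 K) (𝓞 L) c2 ∣ r ^ 2 - algebraMap (𝓞 K) (𝓞 L) (-(c3 * c1))) →
      (∃ r : 𝓞 L, algebraMap (𝓞 K) (𝓞 L) c3 ∣ r ^ 2 - algebraMap (𝓞 K) (𝓞 L) (-(c1 * c2))) →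
      (∀ φ : K →+* ℂ, ‖φ c1‖ ≤ B * rn c1 ∧ ‖φ c2‖ ≤ B * rn c2 ∧ ‖φ c3‖ ≤ B * rn c3) →
      ∃ w ∈ W, ∃ x y z : 𝓞 L, (x ≠ 0 ∨ y ≠ 0 ∨ z ≠ 0) ∧
        algebraMap (𝓞 K) (𝓞 L) c1 * x ^ 2 + algebraMap (𝓞 K) (𝓞 L) c2 * y ^ 2 +
          algebraMap (𝓞 K) (𝓞 L) c3 * z ^ 2 = algebraMap (𝓞 K) (𝓞 L) (c1 * c2 * c3) * w := by
  classical
  obtain ⟨C, hC⟩ := Pool.Agent.Helper35.CB.legendre L (B ^ Module.finrank ℚ L)
  have hfin : {w : 𝓞 L | ∀ σ : L →+* ℂ, ‖σ (w : L)‖ ≤ C}.Finite := by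
    have h := NumberField.Embeddings.finite_of_norm_le L ℂ C
    refine Set.Finite.of_finite_image (f := fun w : 𝓞 L => (w : L)) (h.subset ?_) ?_
    · rintro _ ⟨w, hw, rfl⟩
      exact ⟨RingOfIntegers.isIntegral_coe w, hw⟩
    · intro v _ w _ h
      exact RingOfIntegers.ext h
  refine ⟨hfin.toFinset, ?_⟩
  intro c1 c2 c3 h1 h2 h3 h12 h23 h31 ⟨r1, hr1⟩ ⟨r2, hr2⟩ ⟨r3, hr3⟩ hB
  have hinj : Function.Injective (algebraMap (𝓞 K) (𝓞 L)) :=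
    FaithfulSMul.algebraMap_injective (𝓞 K) (𝓞 L)
  have hz : ∀ c : 𝓞 K, c ≠ 0 → algebraMap (𝓞 K) (𝓞 L) c ≠ 0 := fun c hc h0 =>
    hc (hinj (by rw [h0, map_zero]))
  have hn : ∀ c : 𝓞 K, (B * rn c) ^ Module.finrank ℚ L ≤ B ^ Module.finrank ℚ L *
      |((Algebra.norm ℤ (algebraMap (𝓞 K) (𝓞 L) c) : ℤ) : ℝ)| := fun c => by
    rw [mul_pow, rn_pow K L]
  have hb : ∀ c : 𝓞 K, (∀ φ : K →+* ℂ, ‖φ c‖ ≤ B * rn c) → ∀ σ : L →+* ℂ,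
      ‖σ ((algebraMap (𝓞 K) (𝓞 L) c : 𝓞 L) : L)‖ ≤ B * rn c := fun c hc σ =>
    hc (σ.comp (algebraMap K L))
  obtain ⟨x, hx, w, hw, hwC⟩ := hC
    ![algebraMap (𝓞 K) (𝓞 L) c1, algebraMap (𝓞 K) (𝓞 L) c2, algebraMap (𝓞 K) (𝓞 L) c3]
    ![r1, r2, r3] ![B * rn c1, B * rn c2, B * rn c3]
    (by intro i; fin_cases i; exacts [hz _ h1, hz _ h2, hz _ h3])
    (h12.map _) (h31.symm.map _) (h23.map _)
    (by
      change algebraMap (𝓞 K) (𝓞 L) c1 ∣ r1 ^ 2 + algebraMap (𝓞 K) (𝓞 L) c2 *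
        algebraMap (𝓞 K) (𝓞 L) c3
      rw [map_neg, sub_neg_eq_add, map_mul] at hr1
      exact hr1)
    (by
      change algebraMap (𝓞 K) (𝓞 L) c2 ∣ r2 ^ 2 + algebraMap (𝓞 K) (𝓞 L) c1 *
        algebraMap (𝓞 K) (𝓞 L) c3
      rw [map_neg, sub_neg_eq_add, map_mul, mul_comm (algebraMap (𝓞 K) (𝓞 L) c3)] at hr2
      exact hr2)
    (by
      change algebraMap (𝓞 K) (𝓞 L) c3 ∣ r3 ^ 2 + algebraMap (𝓞 K) (𝓞 L) c1 *
        algebraMap (𝓞 K) (𝓞 L) c2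
      rw [map_neg, sub_neg_eq_add, map_mul] at hr3
      exact hr3)
    (by
      intro i σ
      fin_cases i
      exacts [hb _ (fun φ => (hB φ).1) σ, hb _ (fun φ => (hB φ).2.1) σ,
        hb _ (fun φ => (hB φ).2.2) σ])
    (by intro i; fin_cases i; exacts [hn _, hn _, hn _])
  refine ⟨w, by rw [Set.Finite.mem_toFinset]; exact hwC, x 0, x 1, x 2, ?_, ?_⟩
  · by_contra hcon
    push Not at hcon
    obtain ⟨h0, h1, h2⟩ := hcon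
    apply hx
    funext i
    fin_cases i
    exacts [h0, h1, h2]
  · rw [map_mul, map_mul]
    exact hw

end Pool.Agent.Helper4.CB
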