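import Pool.Agent.Helper69.CB.Sift
import Pool.Agent.Helper49.CB.V

/-!
# CB, piece SIFT: the sieve in a coset
-/

set_option autoImplicit false

namespace Pool.Agent.Helper4.CB

open Finset

open Classical in
/-- **SIFT.** Apply `bh` (with `A` = the points of the box in the coset, `I = S.le z`) with ranks
`θ ^ (r + 1) log z < log nm q ≤ θ ^ r log z`, `θ < 1` close to `1` (depending on `D`, `C`),
`κ = 1 / 16`; level `z ^ K`, `K ≥ ∑ (2 r + 3) θ ^ r`; `count_events` and `rad_inf` give `hR` with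
`η = 2 ^ (N + 1) / z`; the number of ranks is `O (log log z)`. -/
theorem sift (N D : ℕ) (C : ℝ) : ∃ K Y0 z1 : ℕ, ∀ (G : Type) [AddCommGroup G] (S : Sys N G),
    S.D = D → (∀ q, Y0 ≤ S.nm q) → S.Mert C → ∀ z : ℕ, z1 ≤ z →
    ∀ (Λ : AddSubgroup G) (ρ X : ℕ) (τ x0 : G), Λ.index ≠ 0 →
      (∀ T : Finset S.Q, T ⊆ S.le z → Λ ⊔ T.inf S.Γ = ⊤) → Rad S.e Λ ρ →
      z ^ K * (ρ + 1) ≤ X →
      |(((bx S.e τ X).filter (fun g => g - x0 ∈ Λ ∧ ∀ q ∈ S.le z, g ∉ S.E q)).card : ℝ) -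
          (X : ℝ) ^ N / Λ.index * S.V z| ≤ 1 / 4 * ((X : ℝ) ^ N / Λ.index * S.V z) :=
  Pool.Agent.Helper69.CB.sift N D C

/-- **VRATIO.** `V w ≤ C' V z` for `w ≤ z ≤ w ^ A`. -/
theorem V_ratio (D : ℕ) (C : ℝ) (A : ℕ) : ∃ (Y0 : ℕ) (C' : ℝ), ∀ (N : ℕ) (G : Type)
    [AddCommGroup G] (S : Sys N G), S.D = D → (∀ q, Y0 ≤ S.nm q) → S.Mert C →
    ∀ w z : ℕ, 2 ≤ w → w ≤ z → z ≤ w ^ A → S.V w ≤ C' * S.V z :=
  Pool.Agent.Helper49.CB.V_ratio D C A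

/-- **VLOWER.** `V z ≥ c z ^ (-δ)`. -/
theorem V_lower (D : ℕ) (C : ℝ) {δ : ℝ} (hδ : 0 < δ) : ∃ (Y0 : ℕ) (c : ℝ), 0 < c ∧ ∀ (N : ℕ)
    (G : Type) [AddCommGroup G] (S : Sys N G), S.D = D → (∀ q, Y0 ≤ S.nm q) → S.Mert C →
    ∀ z : ℕ, 1 ≤ z → c * (z : ℝ) ^ (-δ) ≤ S.V z :=
  Pool.Agent.Helper49.CB.V_lower D C hδ

end Pool.Agent.Helper4.CB
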