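import Pool.Agent.Helper4.CB.Defs
import Pool.Agent.Helper10.CB.SqRes

/-!
# CB, piece SQ: squares modulo numbers with good prime factors
-/

set_option autoImplicit false

namespace Pool.Agent.Helper4.CB

open NumberField

/-- **SQ.** If `L` contains a primitive `2 ^ J`-th root of unity and all places `v | A` of `K` are
odd with `N v ≢ 1` mod `2 ^ J`, then every `c` coprime to `A` is a square modulo `A 𝓞_L`.
Proof: `c ^ (N v - 1) = 1` mod `v` and `(N v - 1) ∣ (N w - 1) / 2` for `w | v`; lift to powers of `w`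
(Newton), Chinese remainder theorem. -/
theorem sq_mod {K L : Type} [Field K] [NumberField K] [Field L] [NumberField L] [Algebra K L]
    {J : ℕ} (hJ : 1 ≤ J) {ζ : L} (hζ : IsPrimitiveRoot ζ (2 ^ J)) {A c : 𝓞 K} (hA : A ≠ 0)
    (hcop : IsCoprime A c)
    (h : ∀ v : Pl K, A ∈ v.asIdeal → (2 : 𝓞 K) ∉ v.asIdeal ∧ ¬ nm v ≡ 1 [MOD 2 ^ J]) :
    ∃ r : 𝓞 L, algebraMap (𝓞 K) (𝓞 L) A ∣ r ^ 2 - algebraMap (𝓞 K) (𝓞 L) c := by
  classical
  have hinj : Function.Injective (algebraMap (𝓞 K) (𝓞 L)) :=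
    FaithfulSMul.algebraMap_injective (𝓞 K) (𝓞 L)
  have hA' : algebraMap (𝓞 K) (𝓞 L) A ≠ 0 := by
    rw [Ne, ← map_zero (algebraMap (𝓞 K) (𝓞 L)), hinj.eq_iff]
    exact hA
  have hI : Ideal.span {algebraMap (𝓞 K) (𝓞 L) A} ≠ 0 := by
    rw [Ne, Ideal.zero_eq_bot, Ideal.span_singleton_eq_bot]
    exact hA'
  obtain ⟨r, hr⟩ := Pool.Agent.Helper10.CB.crt_sq (c := algebraMap (𝓞 K) (𝓞 L) c) _ hI (by
    intro q hq hle
    have hAq : algebraMap (𝓞 K) (𝓞 L) A ∈ q := hle (Ideal.mem_span_singleton_self _)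
    have hp : (q.comap (algebraMap (𝓞 K) (𝓞 L))).IsPrime := Ideal.IsPrime.comap _
    have hAp : A ∈ q.comap (algebraMap (𝓞 K) (𝓞 L)) := hAq
    have hp0 : q.comap (algebraMap (𝓞 K) (𝓞 L)) ≠ ⊥ := by
      intro h0
      rw [h0, Ideal.mem_bot] at hAp
      exact hA hAp
    let v : Pl K := ⟨q.comap (algebraMap (𝓞 K) (𝓞 L)), hp, hp0⟩
    obtain ⟨h2, hn⟩ := h v hAp
    have hcp : c ∉ q.comap (algebraMap (𝓞 K) (𝓞 L)) := by
      intro hc
      obtain ⟨s, t, hst⟩ := hcop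
      apply hp.ne_top
      rw [Ideal.eq_top_iff_one, ← hst]
      exact Ideal.add_mem _ (Ideal.mul_mem_left _ _ hAp) (Ideal.mul_mem_left _ _ hc)
    have hodd : Odd (Ideal.absNorm (q.comap (algebraMap (𝓞 K) (𝓞 L)))) := by
      haveI := hp.isMaximal hp0
      letI : Field (𝓞 K ⧸ q.comap (algebraMap (𝓞 K) (𝓞 L))) := Ideal.Quotient.field _
      haveI : Finite (𝓞 K ⧸ q.comap (algebraMap (𝓞 K) (𝓞 L))) :=
        Ideal.finiteQuotientOfFreeOfNeBot _ hp0
      letI : Fintype (𝓞 K ⧸ q.comap (algebraMap (𝓞 K) (𝓞 L))) := Fintype.ofFinite _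
      rw [Ideal.absNorm_apply, Submodule.cardQuot_apply, Nat.card_eq_fintype_card, Nat.odd_iff]
      apply FiniteField.odd_card_of_char_ne_two
      intro hchar
      apply h2
      have h3 : ((2 : ℕ) : 𝓞 K ⧸ q.comap (algebraMap (𝓞 K) (𝓞 L))) = 0 := by
        rw [← hchar]
        exact ringChar.Nat.cast_ringChar
      have h4 : Ideal.Quotient.mk (q.comap (algebraMap (𝓞 K) (𝓞 L))) (2 : 𝓞 K) = 0 := by
        rw [map_ofNat]
        exact_mod_cast h3
      exact Ideal.Quotient.eq_zero_iff_mem.1 h4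
    refine ⟨?_, hcp, Pool.Agent.Helper10.CB.sq_res hζ hp hp0 hodd hn hq rfl hcp⟩
    intro h5
    apply h2
    change algebraMap (𝓞 K) (𝓞 L) 2 ∈ q
    rw [map_ofNat]
    exact h5)
  refine ⟨r, ?_⟩
  rw [Ideal.mem_span_singleton] at hr
  have := (dvd_neg (α := 𝓞 L)).2 hr
  rwa [neg_sub] at this

end Pool.Agent.Helper4.CB
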