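import Pool.Agent.Helper4.CB.Defs

/-!
# CB: abstract sieve systems
-/

set_option autoImplicit false

namespace Pool.Agent.Helper4.CB

open Finset

/-- An abstract sieve system on the lattice `G`.  In the application `G = 𝓞 K × 𝓞 K`, `Q` is the
set of places `q` of `K` not dividing `m`, `Γ q = q × q` and `E q` is the set of all `(u, v)` such
that `q` divides `∏ P(u, m v)` or `u` and `v`. -/
structure Sys (N : ℕ) (G : Type) [AddCommGroup G] where
  e : (Fin N → ℤ) ≃+ G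
  Q : Type
  nm : Q → ℕ
  Γ : Q → AddSubgroup G
  E : Q → Set G
  D : ℕ
  two_le : ∀ q, 2 ≤ nm q
  fin : ∀ x : ℕ, {q | nm q ≤ x}.Finite
  index : ∀ q, (Γ q).index = nm q ^ 2
  smul_mem : ∀ q g, nm q • g ∈ Γ q
  com : ∀ (T : Finset Q) (q : Q), q ∉ T → Γ q ⊔ T.inf Γ = ⊤
  add_mem : ∀ q g h, g ∈ E q → h ∈ Γ q → g + h ∈ E q
  sub : ∀ q g, g ∈ Γ q → g ∈ E q
  dens : ∀ q, ((QuotientAddGroup.mk : G → G ⧸ Γ q) '' (E q)).ncard ≤ D * nm q

namespace Sys

variable {N : ℕ} {G : Type} [AddCommGroup G] (S : Sys N G)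

/-- the density of `E q` -/
noncomputable def g (q : S.Q) : ℝ :=
  (((QuotientAddGroup.mk : G → G ⧸ S.Γ q) '' (S.E q)).ncard : ℝ) / (S.nm q : ℝ) ^ 2

/-- the indices of norm at most `x` -/
noncomputable def le (x : ℕ) : Finset S.Q := (S.fin x).toFinset

theorem mem_le {x : ℕ} {q : S.Q} : q ∈ S.le x ↔ S.nm q ≤ x := by
  unfold le
  rw [Set.Finite.mem_toFinset]
  rfl

/-- the product of the sieve -/
noncomputable def V (z : ℕ) : ℝ := ∏ q ∈ S.le z, (1 - S.g q)

theorem g_nonneg (q : S.Q) : 0 ≤ S.g q := by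
  unfold g
  positivity

theorem g_le (q : S.Q) : S.g q ≤ S.D / S.nm q := by
  unfold g
  have h2 : (0 : ℝ) < S.nm q := by
    have := S.two_le q
    positivity
  rw [div_le_div_iff₀ (by positivity) h2]
  have h1 : ((((QuotientAddGroup.mk : G → G ⧸ S.Γ q) '' (S.E q)).ncard : ℕ) : ℝ) ≤
      ((S.D * S.nm q : ℕ) : ℝ) := by exact_mod_cast S.dens q
  push_cast at h1
  calc _ ≤ ((S.D : ℝ) * S.nm q) * S.nm q := mul_le_mul_of_nonneg_right h1 h2.le
    _ = _ := by ring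

open Classical in
/-- Mertens' upper bound for the system -/
def Mert (C : ℝ) : Prop := ∀ x y : ℕ, 1 ≤ x → x ≤ y →
  ∑ q ∈ (S.le y).filter (fun q => x < S.nm q), Real.log (S.nm q) / S.nm q ≤
    C * (Real.log y - Real.log x + 1)

end Sys

end Pool.Agent.Helper4.CB
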